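import Pool.Agent.Y356.WD.Lower
import Pool.Agent.Results.MP_0b3830_co.FailsForAllNAtLeastTwo

/-!
# Weighted distance matrices are metrics
-/

set_option autoImplicit false

namespace Pool.Agent.Y356.WD

open Finset Matrix
open Pool.Agent.Results.MP_0b3830_co.FailsForAllNAtLeastTwo

section

variable {V : Type} {G : SimpleGraph V} {φ : Sym2 V → ℝ}

/-- the weight of a walk -/
noncomputable def ww (φ : Sym2 V → ℝ) {u v : V} (p : G.Walk u v) : ℝ := (p.edges.map φ).sum

lemma ww_nonneg (hφ : ∀ e ∈ G.edgeSet, 0 < φ e) {u v : V} (p : G.Walk u v) : 0 ≤ ww φ p := by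
  unfold ww
  apply List.sum_nonneg
  intro x hx
  rw [List.mem_map] at hx
  obtain ⟨e, he, rfl⟩ := hx
  exact (hφ e (p.edges_subset_edgeSet he)).le

lemma dist_le_path (hφ : ∀ e ∈ G.edgeSet, 0 < φ e) {u v : V} (p : G.Walk u v) (hp : p.IsPath) :
    distMatrix G φ u v ≤ ww φ p := by
  unfold distMatrix
  rw [Matrix.of_apply]
  refine csInf_le ⟨0, ?_⟩ ⟨p, hp, rfl⟩
  rintro w ⟨q, -, rfl⟩
  exact ww_nonneg hφ q

lemma dist_le_walk [DecidableEq V] (hφ : ∀ e ∈ G.edgeSet, 0 < φ e) {u v : V} (p : G.Walk u v) :
    distMatrix G φ u v ≤ ww φ p := by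
  refine (dist_le_path hφ p.bypass p.bypass_isPath).trans ?_
  unfold ww
  have h1 : p.bypass.edges.Nodup := p.bypass_isPath.isTrail.edges_nodup
  obtain ⟨l, hl1, hl2⟩ := h1.subperm p.edges_bypass_subset_edges
  rw [← (hl1.map φ).sum_eq]
  refine (hl2.map φ).sum_le_sum fun x hx => ?_
  rw [List.mem_map] at hx
  obtain ⟨e, he, rfl⟩ := hx
  exact (hφ e (p.edges_subset_edgeSet he)).le

lemma le_dist (hG : G.Connected) {u v : V} {t : ℝ}
    (h : ∀ p : G.Walk u v, p.IsPath → t ≤ ww φ p) : t ≤ distMatrix G φ u v := by
  classical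
  unfold distMatrix
  rw [Matrix.of_apply]
  obtain ⟨p⟩ := hG.preconnected u v
  refine le_csInf ⟨_, p.bypass, p.bypass_isPath, rfl⟩ ?_
  rintro w ⟨q, hq, rfl⟩
  exact h q hq

lemma met_dist [Fintype V] [DecidableEq V] (hG : G.Connected)
    (hφ : ∀ e ∈ G.edgeSet, 0 < φ e) : Met (fun u v => distMatrix G φ u v) := by
  refine ⟨fun u v => ?_, fun u => ?_, fun u v huv => ?_, fun u v w => ?_⟩
  · have key : ∀ a b : V, distMatrix G φ a b ≤ distMatrix G φ b a := by
      intro a b
      refine le_dist hG fun p hp => ?_
      have h1 := dist_le_path hφ p.reverse hp.reverse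
      unfold ww at h1 ⊢
      rw [SimpleGraph.Walk.edges_reverse, List.map_reverse, List.sum_reverse] at h1
      exact h1
    exact le_antisymm (key u v) (key v u)
  · apply le_antisymm
    · have h1 := dist_le_path hφ (SimpleGraph.Walk.nil : G.Walk u u) SimpleGraph.Walk.IsPath.nil
      simpa [ww] using h1
    · exact le_dist hG fun p _ => ww_nonneg hφ p
  · obtain ⟨c, hc0, hc⟩ : ∃ c : ℝ, 0 < c ∧ ∀ e ∈ G.edgeSet, c ≤ φ e := by
      rcases G.edgeSet.eq_empty_or_nonempty with h | h
      · exact ⟨1, one_pos, fun e he => absurd (h ▸ he) (Set.notMem_empty e)⟩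
      · obtain ⟨e0, he0, hmin⟩ := Set.exists_min_image G.edgeSet φ (Set.toFinite _) h
        exact ⟨φ e0, hφ e0 he0, hmin⟩
    refine hc0.trans_le (le_dist hG fun p hp => ?_)
    cases p with
    | nil => exact absurd rfl huv
    | cons h q =>
      have h1 := ww_nonneg hφ q
      have h2 := hc _ ((SimpleGraph.mem_edgeSet G).2 h)
      unfold ww at h1 ⊢
      rw [SimpleGraph.Walk.edges_cons, List.map_cons, List.sum_cons]
      linarith
  · have h1 : ∀ (p : G.Walk u v) (q : G.Walk v w), distMatrix G φ u w ≤ ww φ p + ww φ q := by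
      intro p q
      have h2 := dist_le_walk hφ (p.append q)
      unfold ww at h2 ⊢
      rwa [SimpleGraph.Walk.edges_append, List.map_append, List.sum_append] at h2
    have h2 : ∀ q : G.Walk v w, distMatrix G φ u w - ww φ q ≤ distMatrix G φ u v := fun q =>
      le_dist hG fun p _ => by linarith [h1 p q]
    have h3 : distMatrix G φ u w - distMatrix G φ u v ≤ distMatrix G φ v w :=
      le_dist hG fun q _ => by linarith [h2 q]
    show distMatrix G φ u w ≤ distMatrix G φ u v + distMatrix G φ v w
    linarith

/-- The number of vertices is bounded in terms of the number of nonpositive eigenvalues. -/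
theorem graph_lower [Fintype V] [DecidableEq V] (hG : G.Connected)
    (hφ : ∀ e ∈ G.edgeSet, 0 < φ e) :
    Fintype.card V ≤ (641 * (Fintype.card V - numPos (distMatrix G φ))) ^
      (4 * (Fintype.card V - numPos (distMatrix G φ))) := by
  have hne : Nonempty V := hG.nonempty
  have hM := met_dist hG hφ
  have hherm : (distMatrix G φ).IsHermitian := by
    ext u v
    rw [Matrix.conjTranspose_apply, star_trivial]
    exact hM.symm v u
  have hbf : ∀ f : V → ℝ, f ⬝ᵥ (distMatrix G φ *ᵥ f) = bf (fun u v => distMatrix G φ u v) f f := by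
    intro f
    unfold bf Matrix.mulVec dotProduct
    refine sum_congr rfl fun x _ => ?_
    rw [mul_sum]
    exact sum_congr rfl fun y _ => by ring
  have hcard : ∀ (ι : Type) [Fintype ι] (b : ι → V → ℝ), (∀ c : ι → ℝ, c ≠ 0 →
      bf (fun u v => distMatrix G φ u v) (fun w => ∑ k, c k * b k w)
        (fun w => ∑ k, c k * b k w) < 0) →
      Fintype.card ι + numPos (distMatrix G φ) ≤ Fintype.card V := by
    intro ι _ b hb
    let L : (ι → ℝ) →ₗ[ℝ] (V → ℝ) :=
      { toFun := fun c w => ∑ k, c k * b k w
        map_add' := by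
          intro c d
          funext w
          simp [add_mul, sum_add_distrib]
        map_smul' := by
          intro r c
          funext w
          simp [mul_sum, mul_assoc] }
    apply card_add_numPos_le hherm L
    intro c hc
    rw [hbf]
    exact hb c hc
  obtain ⟨R, hR⟩ : ∃ R, R = Fintype.card V - numPos (distMatrix G φ) := ⟨_, rfl⟩
  rw [← hR]
  by_cases hR0 : 1 ≤ R
  · apply lower hM hR0
    intro ι _ b hb
    have := hcard ι b hb
    omega
  · have hR1 : R = 0 := by omega
    rw [hR1]
    have h1 : Fintype.card V ≤ 1 := by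
      by_contra hcon
      push Not at hcon
      obtain ⟨u, v, huv⟩ := Fintype.one_lt_card_iff.1 hcon
      have h2 := hcard Unit (fun _ w => (if w = u then 1 else 0) - (if w = v then 1 else 0)) (by
        intro c hc
        have hc' : c () ≠ 0 := fun h => hc (funext fun _ => h)
        have h3 : bf (fun u v => distMatrix G φ u v)
            (fun w => ∑ k : Unit, c k * ((if w = u then 1 else 0) - (if w = v then 1 else 0)))
            (fun w => ∑ k : Unit, c k * ((if w = u then 1 else 0) - (if w = v then 1 else 0))) =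
            -(2 * distMatrix G φ u v * c () ^ 2) := by
          have e0 : (fun w => ∑ k : Unit, c k * ((if w = u then (1 : ℝ) else 0) -
              (if w = v then 1 else 0))) = fun w => c () * (if w = u then 1 else 0) -
                c () * (if w = v then 1 else 0) := by
            funext w
            simp [mul_sub]
          rw [e0]
          unfold bf
          simp only [sub_mul, mul_sub, sum_sub_distrib, ite_mul, mul_ite, one_mul, mul_one,
            zero_mul, mul_zero, sum_ite_eq', mem_univ, if_true]
          have e1 := hM.self u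
          have e2 := hM.self v
          have e3 := hM.symm v u
          rw [e1, e2, e3]
          ring
        rw [h3]
        have h4 := hM.pos u v huv
        have h5 : 0 < c () ^ 2 := by positivity
        have h6 : 0 < 2 * distMatrix G φ u v * c () ^ 2 := mul_pos (mul_pos two_pos h4) h5
        linarith)
      rw [Fintype.card_unit] at h2
      omega
    simpa using h1

end

end Pool.Agent.Y356.WD
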