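import Mathlib

/-!
# Many nearly orthogonal sign vectors

Exponentially many vectors in `{1, -1} ^ d` with pairwise inner products at most `M` in absolute
value.
-/

set_option autoImplicit false

namespace Pool.Agent.Y356.WD

open Finset

/-- the sign -/
def sg (b : Bool) : ℝ := if b then 1 else -1

/-- inner product of sign vectors -/
noncomputable def ip {d : ℕ} (u v : Fin d → Bool) : ℝ := ∑ i, sg (u i) * sg (v i)

lemma sg_sq (b : Bool) : sg b * sg b = 1 := by cases b <;> simp [sg]

lemma ip_self {d : ℕ} (u : Fin d → Bool) : ip u u = d := by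
  simp [ip, sg_sq]

lemma ip_comm {d : ℕ} (u v : Fin d → Bool) : ip u v = ip v u := by
  unfold ip
  exact sum_congr rfl fun i _ => mul_comm _ _

lemma sum_exp {d : ℕ} (u : Fin d → Bool) (l : ℝ) :
    ∑ v : Fin d → Bool, Real.exp (l * ip u v) = (2 * Real.cosh l) ^ d := by
  have h1 : ∀ v : Fin d → Bool,
      Real.exp (l * ip u v) = ∏ i, Real.exp (l * (sg (u i) * sg (v i))) := by
    intro v
    rw [ip, mul_sum, Real.exp_sum]
  simp_rw [h1]
  have h2 := Finset.prod_univ_sum (fun _ : Fin d => (univ : Finset Bool))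
    (fun i b => Real.exp (l * (sg (u i) * sg b)))
  rw [Fintype.piFinset_univ] at h2
  rw [← h2]
  have h3 : ∀ i : Fin d, ∑ b : Bool, Real.exp (l * (sg (u i) * sg b)) = 2 * Real.cosh l := by
    intro i
    rw [Fintype.sum_bool, Real.cosh_eq]
    cases u i <;> simp [sg] <;> ring
  rw [prod_congr rfl fun i _ => h3 i, prod_const, card_univ, Fintype.card_fin]

lemma bad_card {d : ℕ} (hd : 0 < d) {M : ℝ} (hM : 0 ≤ M) (u : Fin d → Bool) :
    ((univ.filter (fun v : Fin d → Bool => M < |ip u v|)).card : ℝ) ≤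
      2 ^ d * (2 * Real.exp (-(M ^ 2 / (2 * d)))) := by
  have hdr : (0 : ℝ) < d := by exact_mod_cast hd
  set l : ℝ := M / d with hl
  have hl0 : 0 ≤ l := by positivity
  have h1 : ((univ.filter (fun v : Fin d → Bool => M < |ip u v|)).card : ℝ) * Real.exp (l * M) ≤
      ∑ v : Fin d → Bool, (Real.exp (l * ip u v) + Real.exp (-l * ip u v)) := by
    rw [← nsmul_eq_mul, ← sum_const]
    refine (sum_le_sum fun v hv => ?_).trans
      (sum_le_sum_of_subset_of_nonneg (filter_subset _ _) fun _ _ _ => by positivity)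
    rw [mem_filter] at hv
    have e1 := Real.exp_pos (-l * ip u v)
    have e2 := Real.exp_pos (l * ip u v)
    rcases abs_cases (ip u v) with h | h
    · have h3 : Real.exp (l * M) ≤ Real.exp (l * ip u v) :=
        Real.exp_le_exp.2 (mul_le_mul_of_nonneg_left (by linarith [hv.2, h.1]) hl0)
      linarith
    · have h3 : Real.exp (l * M) ≤ Real.exp (-l * ip u v) := by
        refine Real.exp_le_exp.2 ?_
        have h4 : l * M ≤ l * (-ip u v) :=
          mul_le_mul_of_nonneg_left (by linarith [hv.2, h.1]) hl0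
        linarith
      linarith
  rw [sum_add_distrib, sum_exp, sum_exp, Real.cosh_neg] at h1
  have h2 : (2 * Real.cosh l) ^ d ≤ 2 ^ d * Real.exp (l ^ 2 * d / 2) := by
    rw [mul_pow]
    refine mul_le_mul_of_nonneg_left ?_ (by positivity)
    calc Real.cosh l ^ d ≤ (Real.exp (l ^ 2 / 2)) ^ d :=
          pow_le_pow_left₀ (Real.cosh_pos l).le (Real.cosh_le_exp_half_sq l) d
      _ = _ := by
          rw [← Real.exp_nat_mul]
          congr 1
          ring
  have h3 : Real.exp (l ^ 2 * d / 2) = Real.exp (-(M ^ 2 / (2 * d))) * Real.exp (l * M) := by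
    rw [← Real.exp_add]
    congr 1
    rw [hl]
    field_simp
    ring
  have h4 : ((univ.filter (fun v : Fin d → Bool => M < |ip u v|)).card : ℝ) * Real.exp (l * M) ≤
      (2 ^ d * (2 * Real.exp (-(M ^ 2 / (2 * d))))) * Real.exp (l * M) := by
    refine h1.trans ?_
    calc (2 * Real.cosh l) ^ d + (2 * Real.cosh l) ^ d
        ≤ 2 * (2 ^ d * Real.exp (l ^ 2 * d / 2)) := by linarith
      _ = _ := by rw [h3]; ring
  exact le_of_mul_le_mul_right h4 (Real.exp_pos _)

/-- Many nearly orthogonal sign vectors. -/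
theorem exists_code {d : ℕ} {M : ℝ} (hM : 0 ≤ M) (hMd : M < d) {N : ℕ}
    (hN : (N : ℝ) * (2 * Real.exp (-(M ^ 2 / (2 * d)))) ≤ 1) :
    ∃ u : Fin N → (Fin d → Bool), ∀ x y, x ≠ y → |ip (u x) (u y)| ≤ M := by
  classical
  have hd : 0 < d := by
    have : (0 : ℝ) < d := lt_of_le_of_lt hM hMd
    exact_mod_cast this
  obtain ⟨S, hS, hmax⟩ := Finset.exists_max_image
    ((univ : Finset (Finset (Fin d → Bool))).filter
      (fun S => ∀ x ∈ S, ∀ y ∈ S, x ≠ y → |ip x y| ≤ M)) Finset.card
    ⟨∅, by simp⟩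
  rw [mem_filter] at hS
  have hcov : (univ : Finset (Fin d → Bool)) ⊆
      S.biUnion (fun u => univ.filter (fun v => M < |ip u v|)) := by
    intro v _
    rw [mem_biUnion]
    by_contra hcon
    push Not at hcon
    have hgood : ∀ u ∈ S, |ip u v| ≤ M := by
      intro u hu
      have h1 := hcon u hu
      rw [mem_filter] at h1
      by_contra h2
      exact h1 ⟨mem_univ _, not_le.1 h2⟩
    have hv : v ∉ S := by
      intro hv
      have h1 := hgood v hv
      rw [ip_self, Nat.abs_cast] at h1
      linarith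
    have h1 := hmax (insert v S) (by
      rw [mem_filter]
      refine ⟨mem_univ _, ?_⟩
      intro x hx y hy hxy
      rw [mem_insert] at hx hy
      rcases hx with rfl | hx <;> rcases hy with rfl | hy
      · exact absurd rfl hxy
      · rw [ip_comm]; exact hgood y hy
      · exact hgood x hx
      · exact hS.2 x hx y hy hxy)
    rw [card_insert_of_notMem hv] at h1
    omega
  have h1 : (2 : ℝ) ^ d ≤ S.card * (2 ^ d * (2 * Real.exp (-(M ^ 2 / (2 * d))))) := by
    have h2 := card_le_card hcov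
    rw [card_univ, Fintype.card_fun, Fintype.card_bool, Fintype.card_fin] at h2
    have h3 := h2.trans card_biUnion_le
    have h4 : ((2 ^ d : ℕ) : ℝ) ≤
        ∑ u ∈ S, ((univ.filter (fun v : Fin d → Bool => M < |ip u v|)).card : ℝ) := by
      exact_mod_cast h3
    push_cast at h4
    refine h4.trans ((sum_le_sum fun u _ => bad_card hd hM u).trans ?_)
    rw [sum_const, nsmul_eq_mul]
  have h2 : N ≤ S.card := by
    have h3 : (1 : ℝ) ≤ S.card * (2 * Real.exp (-(M ^ 2 / (2 * d)))) := by
      have h4 : (0 : ℝ) < 2 ^ d := by positivity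
      have h5 : (2 : ℝ) ^ d * 1 ≤ 2 ^ d * (S.card * (2 * Real.exp (-(M ^ 2 / (2 * d))))) := by
        linarith
      exact le_of_mul_le_mul_left h5 h4
    have h4 : (0 : ℝ) < 2 * Real.exp (-(M ^ 2 / (2 * d))) := by positivity
    have h5 : (N : ℝ) ≤ S.card := le_of_mul_le_mul_right (hN.trans h3) h4
    exact_mod_cast h5
  obtain ⟨T, hTS, hT⟩ := exists_subset_card_eq h2
  have e := T.equivFinOfCardEq hT
  refine ⟨fun x => (e.symm x : Fin d → Bool), fun x y hxy => ?_⟩
  refine hS.2 _ (hTS (e.symm x).2) _ (hTS (e.symm y).2) fun h => hxy ?_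
  exact e.symm.injective (Subtype.ext h)

end Pool.Agent.Y356.WD
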