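import Pool.Agent.Y356.WD.Scale

/-!
# Decomposition of a finite metric space into scales
-/

set_option autoImplicit false

namespace Pool.Agent.Y356.WD

open Finset

/-- finite metrics -/
structure Met {V : Type} (D : V → V → ℝ) : Prop where
  symm : ∀ x y, D x y = D y x
  self : ∀ x, D x x = 0
  pos : ∀ x y, x ≠ y → 0 < D x y
  tri : ∀ x y z, D x z ≤ D x y + D y z

/-- data at one scale -/
structure Lv (V : Type) where
  /-- the scale -/
  Δ : ℝ
  /-- the number of functions -/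
  s : ℕ
  /-- the functions -/
  b : Fin s → V → ℝ

section

variable {V : Type} [Fintype V] [DecidableEq V]

/-- properties of the data at one scale -/
structure Good (D : V → V → ℝ) (κ : ℝ) (ℓ : Lv V) : Prop where
  pos : 0 < ℓ.Δ
  sum : ∀ k, ∑ w, ℓ.b k w = 0
  supp : ∃ Z : Finset V, (∀ x ∈ Z, ∀ y ∈ Z, D x y ≤ ℓ.Δ) ∧ ∀ k, ∀ w, w ∉ Z → ℓ.b k w = 0
  ne : ∀ c : Fin ℓ.s → ℝ, c ≠ 0 → cb ℓ.b c ≠ 0
  form : ∀ c : Fin ℓ.s → ℝ,
    bf D (cb ℓ.b c) (cb ℓ.b c) ≤ -(κ * ℓ.Δ) * (∑ w, |cb ℓ.b c w|) ^ 2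

/-- extension by zero -/
def ext (S : Finset V) (f : S → ℝ) (v : V) : ℝ := if h : v ∈ S then f ⟨v, h⟩ else 0

lemma ext_coe (S : Finset V) (f : S → ℝ) (x : S) : ext S f x = f x := by
  unfold ext
  rw [dif_pos x.2]

lemma ext_not (S : Finset V) (f : S → ℝ) {v : V} (hv : v ∉ S) : ext S f v = 0 := dif_neg hv

lemma sum_ext (S : Finset V) (f : S → ℝ) (F : V → ℝ → ℝ) (hF : ∀ v, F v 0 = 0) :
    ∑ v, F v (ext S f v) = ∑ x : S, F x (f x) := by
  rw [← Finset.sum_subset (subset_univ S) (fun v _ hv => by rw [ext_not S f hv, hF]),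
    ← Finset.sum_coe_sort S]
  exact sum_congr rfl fun x _ => by rw [ext_coe]

lemma cb_ext {s : ℕ} (S : Finset V) (b : Fin s → S → ℝ) (c : Fin s → ℝ) :
    cb (fun k => ext S (b k)) c = ext S (cb b c) := by
  funext v
  unfold cb
  by_cases hv : v ∈ S
  · have h1 : ∀ f : S → ℝ, ext S f v = f ⟨v, hv⟩ := fun f => dif_pos hv
    simp only [h1]
  · simp [ext_not S _ hv]

lemma bf_ext (D : V → V → ℝ) (S : Finset V) (f g : S → ℝ) :
    bf D (ext S f) (ext S g) = ∑ x : S, ∑ y : S, f x * g y * D x y := by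
  unfold bf
  have h1 : ∀ x, ∑ y, ext S f x * ext S g y * D x y =
      ext S f x * ∑ y : S, g y * D x y := by
    intro x
    have h2 := sum_ext S g (fun y t => t * D x y) (fun y => zero_mul _)
    rw [← h2, mul_sum]
    exact sum_congr rfl fun y _ => by ring
  simp_rw [h1]
  rw [sum_ext S f (fun x t => t * ∑ y : S, g y * D x y) (fun y => zero_mul _)]
  refine sum_congr rfl fun x _ => ?_
  rw [mul_sum]
  exact sum_congr rfl fun y _ => by ring

theorem level {D : V → V → ℝ} (hD : Met D) {R : ℕ} (hR : 1 ≤ R)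
    (hneg : ∀ (s : ℕ) (b : Fin s → V → ℝ),
      (∀ c : Fin s → ℝ, c ≠ 0 → bf D (cb b c) (cb b c) < 0) → s ≤ R)
    {K : ℝ} (hK : 3 ≤ K) (X : Finset V) (hX : 2 ≤ X.card) :
    ∃ (ℓ : Lv V) (Y : Finset V), Good D (1 / (8 * R * K)) ℓ ∧
      (∃ a ∈ X, ∃ b ∈ X, D a b = ℓ.Δ) ∧ Y ⊆ X ∧ Y.Nonempty ∧
      (∀ x ∈ Y, ∀ y ∈ Y, D x y ≤ 2 / K * ℓ.Δ) ∧
      (X.card : ℝ) ^ 2 ≤ (400 * K * R) ^ ℓ.s * (Y.card : ℝ) ^ 2 := by
  have hRr : (1 : ℝ) ≤ R := by exact_mod_cast hR
  have hXne : X.Nonempty := card_pos.1 (by omega)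
  obtain ⟨⟨a, a'⟩, ha, hmax⟩ := exists_max_image (X ×ˢ X) (fun p => D p.1 p.2)
    (hXne.product hXne)
  rw [mem_product] at ha
  obtain ⟨ha1, ha2⟩ := ha
  simp only at ha1 ha2 hmax
  obtain ⟨Δ, hΔ⟩ : ∃ Δ, Δ = D a a' := ⟨_, rfl⟩
  have hΔmax : ∀ x ∈ X, ∀ y ∈ X, D x y ≤ Δ := fun x hx y hy => by
    rw [hΔ]
    exact hmax (x, y) (mem_product.2 ⟨hx, hy⟩)
  have hΔ0 : 0 < Δ := by
    obtain ⟨x, hx, y, hy, hxy⟩ := one_lt_card.1 (by omega : 1 < X.card)
    exact (hD.pos x y hxy).trans_le (hΔmax x hx y hy)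
  have hK0 : 0 < K := by linarith
  have hΔK : 0 < Δ / K := by positivity
  -- the separated set
  obtain ⟨S, hS, hSmax⟩ := exists_max_image
    (X.powerset.filter (fun S => ∀ x ∈ S, ∀ y ∈ S, x ≠ y → Δ / K ≤ D x y)) Finset.card
    ⟨∅, by simp⟩
  rw [mem_filter, mem_powerset] at hS
  obtain ⟨hSX, hSsep⟩ := hS
  have hcov : ∀ x ∈ X, ∃ s ∈ S, D x s < Δ / K := by
    intro x hx
    by_contra hcon
    push Not at hcon
    have hxS : x ∉ S := by
      intro h
      have := hcon x h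
      rw [hD.self] at this
      linarith
    have h1 := hSmax (insert x S) (by
      rw [mem_filter, mem_powerset]
      refine ⟨insert_subset hx hSX, ?_⟩
      intro y hy z hz hyz
      rw [mem_insert] at hy hz
      rcases hy with rfl | hy <;> rcases hz with rfl | hz
      · exact absurd rfl hyz
      · exact hcon z hz
      · rw [hD.symm]; exact hcon y hy
      · exact hSsep y hy z hz hyz)
    rw [card_insert_of_notMem hxS] at h1
    omega
  obtain ⟨x0, hx0⟩ := hXne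
  obtain ⟨s1, hs1, -⟩ := hcov x0 hx0
  obtain ⟨s0, hs0, hs0max⟩ := exists_max_image S
    (fun s => (X.filter (fun x => D x s < Δ / K)).card) ⟨s1, hs1⟩
  set Y := X.filter (fun x => D x s0 < Δ / K) with hY
  have hXY : X.card ≤ S.card * Y.card := by
    have h1 : X ⊆ S.biUnion (fun s => X.filter (fun x => D x s < Δ / K)) := by
      intro x hx
      obtain ⟨s, hs, hxs⟩ := hcov x hx
      exact mem_biUnion.2 ⟨s, hs, mem_filter.2 ⟨hx, hxs⟩⟩
    refine (card_le_card h1).trans (card_biUnion_le.trans ?_)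
    refine (sum_le_sum fun s hs => hs0max s hs).trans ?_
    rw [sum_const, smul_eq_mul]
  have hS2 : 2 ≤ S.card := by
    by_contra hcon
    have hc1 : S.card = 1 := by
      have : 0 < S.card := card_pos.2 ⟨s0, hs0⟩
      omega
    obtain ⟨z, hz⟩ := card_eq_one.1 hc1
    have hSs : ∀ s ∈ S, s = s0 := by
      intro s hs
      rw [hz, mem_singleton] at hs hs0
      rw [hs, hs0]
    obtain ⟨s, hs, h1⟩ := hcov a ha1
    obtain ⟨s', hs', h2⟩ := hcov a' ha2
    rw [hSs s hs] at h1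
    rw [hSs s' hs'] at h2
    have h3 := hD.tri a s0 a'
    rw [hD.symm s0 a', ← hΔ] at h3
    have h4 : Δ / K ≤ Δ / 3 := div_le_div_of_nonneg_left hΔ0.le (by norm_num) hK
    linarith
  -- one scale
  have hc0 : 0 < K / Δ := by positivity
  obtain ⟨s, b, hs, hb1, hb2, hb3⟩ := one_scale (W := S) (D := fun x y => K / Δ * D x y)
    (fun x y => by rw [hD.symm]) (fun x => by rw [hD.self, mul_zero]) (K := K) (by linarith)
    (fun x y hxy => by
      have h1 := hSsep x x.2 y y.2 (fun h => hxy (Subtype.ext h))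
      have h2 : 1 = K / Δ * (Δ / K) := by field_simp
      rw [h2]
      exact mul_le_mul_of_nonneg_left h1 hc0.le)
    (fun x y => by
      have h1 := hΔmax x (hSX x.2) y (hSX y.2)
      calc K / Δ * D x y ≤ K / Δ * Δ := mul_le_mul_of_nonneg_left h1 hc0.le
        _ = K := by field_simp)
    (by rw [Fintype.card_coe]; exact hS2) hR
    (fun s b hb => by
      apply hneg s (fun k => ext S (b k))
      intro c hc
      rw [cb_ext, bf_ext]
      have h1 := hb c hc
      have h2 : bf (fun x y : S => K / Δ * D x y) (cb b c) (cb b c) =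
          K / Δ * ∑ x : S, ∑ y : S, cb b c x * cb b c y * D x y := by
        unfold bf
        simp_rw [mul_sum]
        exact sum_congr rfl fun x _ => sum_congr rfl fun y _ => by ring
      rw [h2] at h1
      by_contra hcon
      have h3 := mul_nonneg hc0.le (not_lt.1 hcon)
      linarith)
  rw [Fintype.card_coe] at hb3
  refine ⟨⟨Δ, s, fun k => ext S (b k)⟩, Y, ⟨hΔ0, fun k => ?_, ⟨S, fun x hx y hy =>
    hΔmax x (hSX hx) y (hSX hy), fun k w hw => ext_not S _ hw⟩, fun c hc => ?_, fun c => ?_⟩,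
    ⟨a, ha1, a', ha2, hΔ.symm⟩, filter_subset _ _, ⟨s0, ?_⟩, ?_, ?_⟩
  · show ∑ w, ext S (b k) w = 0
    rw [sum_ext S (b k) (fun _ t => t) (fun _ => rfl)]
    exact hb1 k
  · show cb (fun k => ext S (b k)) c ≠ 0
    rw [cb_ext]
    intro h
    apply (hb2 c hc).1
    funext x
    have := congrFun h x
    rwa [ext_coe] at this
  · show bf D (cb (fun k => ext S (b k)) c) (cb (fun k => ext S (b k)) c) ≤
      -(1 / (8 * R * K) * Δ) * (∑ w, |cb (fun k => ext S (b k)) c w|) ^ 2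
    rw [cb_ext, bf_ext, sum_ext S (cb b c) (fun _ t => |t|) (fun _ => abs_zero)]
    by_cases hc : c = 0
    · have h1 : ∀ x, cb b c x = 0 := by
        intro x
        rw [hc]
        simp [cb]
      simp [h1]
    · have h1 := (hb2 c hc).2
      have h2 : bf (fun x y : S => K / Δ * D x y) (cb b c) (cb b c) =
          K / Δ * ∑ x : S, ∑ y : S, cb b c x * cb b c y * D x y := by
        unfold bf
        simp_rw [mul_sum]
        exact sum_congr rfl fun x _ => sum_congr rfl fun y _ => by ring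
      rw [h2] at h1
      have h3 : Δ / K * (K / Δ * ∑ x : S, ∑ y : S, cb b c x * cb b c y * D x y) ≤
          Δ / K * (-(1 / (8 * R)) * (∑ w, |cb b c w|) ^ 2) :=
        mul_le_mul_of_nonneg_left h1 hΔK.le
      have h4 : Δ / K * (K / Δ * ∑ x : S, ∑ y : S, cb b c x * cb b c y * D x y) =
          ∑ x : S, ∑ y : S, cb b c x * cb b c y * D x y := by
        rw [← mul_assoc]
        have : Δ / K * (K / Δ) = 1 := by field_simp
        rw [this, one_mul]
      rw [h4] at h3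
      refine h3.trans (le_of_eq ?_)
      field_simp
  · rw [hY, mem_filter, hD.self]
    exact ⟨hSX hs0, hΔK⟩
  · intro x hx y hy
    show D x y ≤ 2 / K * Δ
    have h1 := (mem_filter.1 hx).2
    have h2 := (mem_filter.1 hy).2
    have h3 := hD.tri x s0 y
    rw [hD.symm s0 y] at h3
    have h4 : 2 / K * Δ = Δ / K + Δ / K := by ring
    linarith
  · show (X.card : ℝ) ^ 2 ≤ (400 * K * R) ^ s * (Y.card : ℝ) ^ 2
    have h1 : (X.card : ℝ) ≤ S.card * Y.card := by exact_mod_cast hXY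
    calc (X.card : ℝ) ^ 2 ≤ ((S.card : ℝ) * Y.card) ^ 2 :=
          pow_le_pow_left₀ (Nat.cast_nonneg _) h1 2
      _ = (S.card : ℝ) ^ 2 * (Y.card : ℝ) ^ 2 := mul_pow _ _ _
      _ ≤ _ := mul_le_mul_of_nonneg_right hb3 (by positivity)

theorem chain {D : V → V → ℝ} (hD : Met D) {R : ℕ} (hR : 1 ≤ R)
    (hneg : ∀ (s : ℕ) (b : Fin s → V → ℝ),
      (∀ c : Fin s → ℝ, c ≠ 0 → bf D (cb b c) (cb b c) < 0) → s ≤ R)
    {K : ℝ} (hK : 3 ≤ K) (n : ℕ) : ∀ X : Finset V, X.card ≤ n → X.Nonempty → ∀ Δ0 : ℝ,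
      (∀ x ∈ X, ∀ y ∈ X, D x y ≤ Δ0) →
    ∃ (T : ℕ) (ℓ : ℕ → Lv V), (∀ i < T, Good D (1 / (8 * R * K)) (ℓ i)) ∧
      (0 < T → (ℓ 0).Δ ≤ Δ0) ∧ (∀ i, i + 1 < T → (ℓ (i + 1)).Δ ≤ 2 / K * (ℓ i).Δ) ∧
      (X.card : ℝ) ^ 2 ≤ (400 * K * R) ^ (∑ i ∈ range T, (ℓ i).s) := by
  have hRr : (1 : ℝ) ≤ R := by exact_mod_cast hR
  induction n with
  | zero =>
    intro X hX hne
    exact absurd (card_pos.2 hne) (by omega)
  | succ n ih =>
    intro X hX hne Δ0 hΔ0
    by_cases h1 : X.card = 1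
    · refine ⟨0, fun _ => ⟨0, 0, fun _ _ => 0⟩, fun i hi => absurd hi (Nat.not_lt_zero i),
        fun h => absurd h (lt_irrefl 0), fun i hi => absurd hi (Nat.not_lt_zero _), ?_⟩
      rw [h1]
      simp
    · have h2 : 2 ≤ X.card := by
        have := card_pos.2 hne
        omega
      obtain ⟨ℓ0, Y, hg, ⟨a, ha, a', ha', haa⟩, hYX, hYne, hYd, hcard⟩ :=
        level hD hR hneg hK X h2
      have hlt : Y.card < X.card := by
        apply card_lt_card
        refine hYX.ssubset_of_ne fun h => ?_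
        rw [h] at hYd
        have h3 := hYd a ha a' ha'
        rw [haa] at h3
        have h4 : 2 / K * ℓ0.Δ ≤ 2 / 3 * ℓ0.Δ := by
          refine mul_le_mul_of_nonneg_right ?_ hg.pos.le
          exact div_le_div_of_nonneg_left (by norm_num) (by norm_num) hK
        have := hg.pos
        linarith
      obtain ⟨T, ℓ, g1, g2, g3, g4⟩ := ih Y (by omega) hYne (2 / K * ℓ0.Δ) hYd
      refine ⟨T + 1, fun i => Nat.casesOn i ℓ0 ℓ, ?_, ?_, ?_, ?_⟩
      · intro i hi
        cases i with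
        | zero => exact hg
        | succ i => exact g1 i (by omega)
      · intro _
        show ℓ0.Δ ≤ Δ0
        rw [← haa]
        exact hΔ0 a ha a' ha'
      · intro i hi
        cases i with
        | zero => exact g2 (by omega)
        | succ i => exact g3 i (by omega)
      · rw [sum_range_succ']
        show (X.card : ℝ) ^ 2 ≤ (400 * K * R) ^ (∑ i ∈ range T, (ℓ i).s + ℓ0.s)
        rw [pow_add, mul_comm]
        exact hcard.trans (mul_le_mul_of_nonneg_left g4 (by positivity))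

end

end Pool.Agent.Y356.WD
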