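import Pool.Agent.Y356.WD.Level

/-!
# The distance matrix of a finite metric space has many nonpositive eigenvalues
-/

set_option autoImplicit false

namespace Pool.Agent.Y356.WD

open Finset

section

variable {V : Type} [Fintype V]

/-- the norm -/
def nm (f : V → ℝ) : ℝ := ∑ w, |f w|

lemma nm_nonneg (f : V → ℝ) : 0 ≤ nm f := sum_nonneg fun _ _ => abs_nonneg _

lemma nm_pos {f : V → ℝ} (hf : f ≠ 0) : 0 < nm f := by
  obtain ⟨w, hw⟩ := Function.ne_iff.1 hf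
  exact sum_pos' (fun _ _ => abs_nonneg _) ⟨w, mem_univ _, abs_pos.2 hw⟩

lemma bf_comm {D : V → V → ℝ} (hD : ∀ x y, D x y = D y x) (f g : V → ℝ) :
    bf D f g = bf D g f := by
  unfold bf
  rw [sum_comm]
  exact sum_congr rfl fun x _ => sum_congr rfl fun y _ => by rw [hD y x]; ring

/-- cross terms -/
lemma cross {D : V → V → ℝ} (hD : Met D) (f g : V → ℝ) {Z : Finset V} {Δ : ℝ}
    (hZ : ∀ x ∈ Z, ∀ y ∈ Z, D x y ≤ Δ) (hg : ∀ w, w ∉ Z → g w = 0) (h0 : ∑ w, g w = 0) :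
    |bf D f g| ≤ nm f * nm g * Δ := by
  classical
  rcases Z.eq_empty_or_nonempty with hZe | ⟨z, hz⟩
  · have h1 : ∀ w, g w = 0 := fun w => hg w (by rw [hZe]; exact notMem_empty w)
    simp [bf, nm, h1]
  · have h1 : ∀ x, |∑ y, g y * D x y| ≤ nm g * Δ := by
      intro x
      have h2 : ∑ y, g y * D x y = ∑ y, g y * (D x y - D x z) := by
        simp_rw [mul_sub]
        rw [sum_sub_distrib, ← sum_mul, h0, zero_mul, sub_zero]
      rw [h2]
      refine (abs_sum_le_sum_abs _ _).trans ?_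
      rw [nm, sum_mul]
      refine sum_le_sum fun y _ => ?_
      rw [abs_mul]
      by_cases hy : y ∈ Z
      · refine mul_le_mul_of_nonneg_left ?_ (abs_nonneg _)
        have h3 := hD.tri x z y
        have h4 := hD.tri x y z
        have h5 := hZ z hz y hy
        have h6 := hZ y hy z hz
        rw [abs_le]
        constructor <;> linarith
      · rw [hg y hy]
        simp
    have h2 : bf D f g = ∑ x, f x * ∑ y, g y * D x y := by
      unfold bf
      refine sum_congr rfl fun x _ => ?_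
      rw [mul_sum]
      exact sum_congr rfl fun y _ => by ring
    rw [h2]
    refine (abs_sum_le_sum_abs _ _).trans ?_
    rw [nm, sum_mul, sum_mul]
    refine sum_le_sum fun x _ => ?_
    rw [abs_mul, mul_assoc]
    exact mul_le_mul_of_nonneg_left (h1 x) (abs_nonneg _)

lemma bf_sum {ι : Type} (I : Finset ι) (D : V → V → ℝ) (f : ι → V → ℝ) :
    bf D (fun w => ∑ i ∈ I, f i w) (fun w => ∑ i ∈ I, f i w) = ∑ i ∈ I, ∑ j ∈ I, bf D (f i) (f j) := by
  unfold bf
  have h1 : ∀ x y, (∑ i ∈ I, f i x) * (∑ j ∈ I, f j y) * D x y =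
      ∑ i ∈ I, ∑ j ∈ I, f i x * f j y * D x y := by
    intro x y
    rw [sum_mul_sum, sum_mul]
    exact sum_congr rfl fun i _ => by rw [sum_mul]
  simp_rw [h1]
  have h2 : ∀ x, ∑ y, ∑ i ∈ I, ∑ j ∈ I, f i x * f j y * D x y =
      ∑ i ∈ I, ∑ j ∈ I, ∑ y, f i x * f j y * D x y := by
    intro x
    rw [sum_comm]
    exact sum_congr rfl fun i _ => sum_comm
  simp_rw [h2]
  rw [sum_comm]
  exact sum_congr rfl fun i _ => sum_comm

end

/-- the weights -/
noncomputable def wt (i j : ℕ) : ℝ := (1 / 2) ^ (i - j + (j - i))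

lemma wt_comm (i j : ℕ) : wt i j = wt j i := by
  unfold wt
  rw [add_comm]

lemma wt_pos (i j : ℕ) : 0 < wt i j := by
  unfold wt
  positivity

lemma geoA (i : ℕ) : ∑ j ∈ range i, ((1 : ℝ) / 2) ^ (i - j) = 1 - (1 / 2) ^ i := by
  induction i with
  | zero => simp
  | succ i ih =>
    rw [sum_range_succ']
    have h1 : ∀ j ∈ range i, ((1 : ℝ) / 2) ^ (i + 1 - (j + 1)) = (1 / 2) ^ (i - j) := by
      intro j _
      congr 1
      omega
    rw [sum_congr rfl h1, ih, Nat.sub_zero, pow_succ]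
    ring

lemma geoB (n : ℕ) : ∑ j ∈ range n, ((1 : ℝ) / 2) ^ (j + 1) = 1 - (1 / 2) ^ n := by
  induction n with
  | zero => simp
  | succ n ih =>
    rw [sum_range_succ, ih, pow_succ]
    ring

lemma wt_sum (T i : ℕ) (I : Finset ℕ) (hI : I ⊆ range T) :
    ∑ j ∈ I, (if j = i then 0 else wt i j) ≤ 2 := by
  have hnn : ∀ j, 0 ≤ (if j = i then 0 else wt i j) := by
    intro j
    split_ifs
    · exact le_rfl
    · exact (wt_pos i j).le
  have h1 : ∑ j ∈ I, (if j = i then 0 else wt i j) ≤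
      ∑ j ∈ range (i + 1 + T), (if j = i then 0 else wt i j) := by
    refine sum_le_sum_of_subset_of_nonneg (hI.trans ?_) fun j _ _ => hnn j
    intro j hj
    rw [mem_range] at hj ⊢
    omega
  rw [sum_range_add, sum_range_succ, if_pos rfl, add_zero] at h1
  have h2 : ∑ j ∈ range i, (if j = i then 0 else wt i j) = 1 - (1 / 2) ^ i := by
    rw [← geoA i]
    refine sum_congr rfl fun j hj => ?_
    rw [mem_range] at hj
    rw [if_neg (by omega)]
    unfold wt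
    congr 1
    omega
  have h3 : ∑ j ∈ range T, (if i + 1 + j = i then 0 else wt i (i + 1 + j)) = 1 - (1 / 2) ^ T := by
    rw [← geoB T]
    refine sum_congr rfl fun j _ => ?_
    rw [if_neg (by omega)]
    unfold wt
    congr 1
    omega
  rw [h2, h3] at h1
  have h4 : (0 : ℝ) < (1 / 2) ^ i := by positivity
  have h5 : (0 : ℝ) < (1 / 2) ^ T := by positivity
  linarith

section

variable {V : Type} [Fintype V] [DecidableEq V]

lemma scale_le {K : ℝ} (hK : 0 < K) {T : ℕ} {ℓ : ℕ → Lv V}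
    (h : ∀ i, i + 1 < T → (ℓ (i + 1)).Δ ≤ 2 / K * (ℓ i).Δ) (i n : ℕ) (hn : i + n < T) :
    (ℓ (i + n)).Δ ≤ (2 / K) ^ n * (ℓ i).Δ := by
  induction n with
  | zero => simp
  | succ n ih =>
    have h1 := h (i + n) (by omega)
    have h2 := ih (by omega)
    calc (ℓ (i + (n + 1))).Δ ≤ 2 / K * (ℓ (i + n)).Δ := h1
      _ ≤ 2 / K * ((2 / K) ^ n * (ℓ i).Δ) := mul_le_mul_of_nonneg_left h2 (by positivity)
      _ = _ := by rw [pow_succ]; ring

/-- Levels which are far from each other are nearly orthogonal. -/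
lemma cross2 {D : V → V → ℝ} (hD : Met D) {K κ : ℝ} (hK : 8 ≤ K) {T : ℕ} {ℓ : ℕ → Lv V}
    (hg : ∀ i < T, Good D κ (ℓ i)) (h : ∀ i, i + 1 < T → (ℓ (i + 1)).Δ ≤ 2 / K * (ℓ i).Δ)
    {i j : ℕ} (hij : i + 4 ≤ j) (hj : j < T) (f : V → ℝ) (c : Fin (ℓ j).s → ℝ) :
    |bf D f (cb (ℓ j).b c)| ≤ 64 / K ^ 2 * wt i j *
      ((Real.sqrt (ℓ i).Δ * nm f) * (Real.sqrt (ℓ j).Δ * nm (cb (ℓ j).b c))) := by
  have hgi := hg i (by omega)
  have hgj := hg j hj
  obtain ⟨Z, hZ1, hZ2⟩ := hgj.supp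
  have h1 := cross hD f (cb (ℓ j).b c) (Z := Z) (Δ := (ℓ j).Δ) hZ1
    (fun w hw => by
      unfold cb
      exact sum_eq_zero fun k _ => by rw [hZ2 k w hw, mul_zero])
    (by
      unfold cb
      rw [sum_comm]
      exact sum_eq_zero fun k _ => by rw [← mul_sum, hgj.sum, mul_zero])
  refine h1.trans ?_
  obtain ⟨n, rfl⟩ : ∃ n, j = i + n := ⟨j - i, by omega⟩
  have hn : 4 ≤ n := by omega
  have h2 := scale_le (by linarith : (0 : ℝ) < K) h i n hj
  have h3 : wt i (i + n) = (1 / 2) ^ n := by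
    unfold wt
    congr 1
    omega
  rw [h3]
  have h4 : (2 / K) ^ n ≤ (64 / K ^ 2 * (1 / 2) ^ n) ^ 2 := by
    have e1 : (64 / K ^ 2 * (1 / 2) ^ n) ^ 2 = (8 / K) ^ 4 * (1 / 4) ^ n := by
      have e0 : ((1 : ℝ) / 2) ^ 2 = 1 / 4 := by norm_num
      rw [mul_pow, ← pow_mul, mul_comm n 2, pow_mul, e0]
      ring
    have e2 : (2 / K) ^ n = (8 / K) ^ n * (1 / 4) ^ n := by
      rw [← mul_pow]
      congr 1
      ring
    rw [e1, e2]
    refine mul_le_mul_of_nonneg_right ?_ (by positivity)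
    exact pow_le_pow_of_le_one (by positivity) ((div_le_one (by linarith)).2 hK) hn
  have h5 : Real.sqrt (ℓ (i + n)).Δ ≤ 64 / K ^ 2 * (1 / 2) ^ n * Real.sqrt (ℓ i).Δ := by
    rw [← Real.sqrt_sq (by positivity : 0 ≤ 64 / K ^ 2 * (1 / 2 : ℝ) ^ n),
      ← Real.sqrt_mul (by positivity)]
    refine Real.sqrt_le_sqrt (h2.trans ?_)
    exact mul_le_mul_of_nonneg_right h4 hgi.pos.le
  have h6 : Real.sqrt (ℓ (i + n)).Δ * Real.sqrt (ℓ (i + n)).Δ = (ℓ (i + n)).Δ :=
    Real.mul_self_sqrt hgj.pos.le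
  have h7 := nm_nonneg f
  have h8 := nm_nonneg (cb (ℓ (i + n)).b c)
  calc nm f * nm (cb (ℓ (i + n)).b c) * (ℓ (i + n)).Δ
      = nm f * nm (cb (ℓ (i + n)).b c) * Real.sqrt (ℓ (i + n)).Δ * Real.sqrt (ℓ (i + n)).Δ := by
        rw [mul_assoc (nm f * nm (cb (ℓ (i + n)).b c)), h6]
    _ ≤ nm f * nm (cb (ℓ (i + n)).b c) * Real.sqrt (ℓ (i + n)).Δ *
        (64 / K ^ 2 * (1 / 2) ^ n * Real.sqrt (ℓ i).Δ) :=
        mul_le_mul_of_nonneg_left h5 (by positivity)
    _ = _ := by ring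

/-- Sums over levels which are far from each other are negative. -/
lemma block {D : V → V → ℝ} (hD : Met D) {K κ : ℝ} (hK : 8 ≤ K) (hκ : 128 / K ^ 2 < κ) {T : ℕ}
    {ℓ : ℕ → Lv V} (hg : ∀ i < T, Good D κ (ℓ i))
    (h : ∀ i, i + 1 < T → (ℓ (i + 1)).Δ ≤ 2 / K * (ℓ i).Δ) (I : Finset ℕ) (hI : I ⊆ range T)
    (hI4 : ∀ i ∈ I, ∀ j ∈ I, i < j → i + 4 ≤ j) (c : ∀ i, Fin (ℓ i).s → ℝ)
    (hc : ∃ i ∈ I, c i ≠ 0) :
    bf D (fun w => ∑ i ∈ I, cb (ℓ i).b (c i) w) (fun w => ∑ i ∈ I, cb (ℓ i).b (c i) w) < 0 := by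
  obtain ⟨f, hf⟩ : ∃ f : ℕ → V → ℝ, ∀ i, f i = cb (ℓ i).b (c i) := ⟨_, fun _ => rfl⟩
  obtain ⟨u, hu⟩ : ∃ u : ℕ → ℝ, ∀ i, u i = Real.sqrt (ℓ i).Δ * nm (f i) := ⟨_, fun _ => rfl⟩
  have hu0 : ∀ i, 0 ≤ u i := fun i => by
    rw [hu]
    exact mul_nonneg (Real.sqrt_nonneg _) (nm_nonneg _)
  have hT : ∀ i ∈ I, i < T := fun i hi => mem_range.1 (hI hi)
  have hdiag : ∀ i ∈ I, bf D (f i) (f i) ≤ -κ * u i ^ 2 := by
    intro i hi
    have h1 := (hg i (hT i hi)).form (c i)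
    rw [← hf] at h1
    rw [hu, mul_pow, Real.sq_sqrt (hg i (hT i hi)).pos.le]
    refine h1.trans (le_of_eq ?_)
    unfold nm
    ring
  have hoff : ∀ i ∈ I, ∀ j ∈ I, i ≠ j → bf D (f i) (f j) ≤ 64 / K ^ 2 * wt i j * (u i * u j) := by
    intro i hi j hj hij
    rcases lt_or_gt_of_ne hij with hlt | hlt
    · have h1 := cross2 hD hK hg h (hI4 i hi j hj hlt) (hT j hj) (f i) (c j)
      rw [← hf, ← hu, ← hu] at h1
      exact (le_abs_self _).trans h1
    · have h1 := cross2 hD hK hg h (hI4 j hj i hi hlt) (hT i hi) (f j) (c i)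
      rw [← hf, ← hu, ← hu] at h1
      rw [bf_comm hD.symm, wt_comm, mul_comm (u i)]
      exact (le_abs_self _).trans h1
  have hrow : ∀ i ∈ I, ∑ j ∈ I, bf D (f i) (f j) ≤ -κ * u i ^ 2 +
      ∑ j ∈ I, 32 / K ^ 2 * (if j = i then 0 else wt i j) * (u i ^ 2 + u j ^ 2) := by
    intro i hi
    rw [← add_sum_erase I _ hi, ← add_sum_erase I
      (fun j => 32 / K ^ 2 * (if j = i then 0 else wt i j) * (u i ^ 2 + u j ^ 2)) hi]
    rw [if_pos rfl, mul_zero, zero_mul, zero_add]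
    refine add_le_add (hdiag i hi) (sum_le_sum fun j hj => ?_)
    rw [mem_erase] at hj
    rw [if_neg hj.1]
    refine (hoff i hi j hj.2 (Ne.symm hj.1)).trans ?_
    have h1 : 0 ≤ 32 / K ^ 2 * wt i j := mul_nonneg (by positivity) (wt_pos i j).le
    have h2 : 2 * (u i * u j) ≤ u i ^ 2 + u j ^ 2 := by nlinarith [sq_nonneg (u i - u j)]
    calc 64 / K ^ 2 * wt i j * (u i * u j) = 32 / K ^ 2 * wt i j * (2 * (u i * u j)) := by ring
      _ ≤ _ := mul_le_mul_of_nonneg_left h2 h1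
  have hsym : ∑ i ∈ I, ∑ j ∈ I, 32 / K ^ 2 * (if j = i then 0 else wt i j) * (u i ^ 2 + u j ^ 2) =
      ∑ i ∈ I, 64 / K ^ 2 * u i ^ 2 * ∑ j ∈ I, (if j = i then 0 else wt i j) := by
    have e1 : ∀ i j, 32 / K ^ 2 * (if j = i then 0 else wt i j) * (u i ^ 2 + u j ^ 2) =
        32 / K ^ 2 * u i ^ 2 * (if j = i then 0 else wt i j) +
          32 / K ^ 2 * u j ^ 2 * (if i = j then 0 else wt j i) := by
      intro i j
      by_cases hij : j = i
      · subst hij; simp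
      · rw [if_neg hij, if_neg (Ne.symm hij), wt_comm j i]; ring
    simp_rw [e1, sum_add_distrib]
    rw [sum_comm (f := fun i j => 32 / K ^ 2 * u j ^ 2 * (if i = j then 0 else wt j i)),
      ← sum_add_distrib]
    refine sum_congr rfl fun i _ => ?_
    rw [← mul_sum]
    ring
  have hfF : (fun w => ∑ i ∈ I, cb (ℓ i).b (c i) w) = fun w => ∑ i ∈ I, f i w := by
    funext w
    exact sum_congr rfl fun i _ => by rw [hf]
  rw [hfF, bf_sum]
  refine (sum_le_sum hrow).trans_lt ?_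
  rw [sum_add_distrib, hsym, ← sum_add_distrib]
  have hle : ∀ i ∈ I, -κ * u i ^ 2 + 64 / K ^ 2 * u i ^ 2 *
      ∑ j ∈ I, (if j = i then 0 else wt i j) ≤ -(κ - 128 / K ^ 2) * u i ^ 2 := by
    intro i _
    have h1 := wt_sum T i I hI
    have h2 : 0 ≤ 64 / K ^ 2 * u i ^ 2 := by positivity
    have h3 := mul_le_mul_of_nonneg_left h1 h2
    calc _ ≤ -κ * u i ^ 2 + 64 / K ^ 2 * u i ^ 2 * 2 := by linarith
      _ = _ := by ring
  refine (sum_le_sum hle).trans_lt ?_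
  obtain ⟨i, hi, hci⟩ := hc
  have hfi : f i ≠ 0 := by
    rw [hf]
    exact (hg i (hT i hi)).ne (c i) hci
  have hui : 0 < u i := by
    rw [hu]
    exact mul_pos (Real.sqrt_pos.2 (hg i (hT i hi)).pos) (nm_pos hfi)
  have hκ' : 0 < κ - 128 / K ^ 2 := by linarith
  refine sum_neg' (fun j _ => ?_) ⟨i, hi, ?_⟩
  · have := mul_nonneg hκ'.le (sq_nonneg (u j))
    linarith
  · have := mul_pos hκ' (pow_pos hui 2)
    linarith

/-- The number of points of a finite metric space is bounded in terms of the maximal dimension `R`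
of the spaces on which the form is negative. -/
theorem lower [Nonempty V] {D : V → V → ℝ} (hD : Met D) {R : ℕ} (hR : 1 ≤ R)
    (hcard : ∀ (ι : Type) [Fintype ι] (b : ι → V → ℝ), (∀ c : ι → ℝ, c ≠ 0 →
      bf D (fun w => ∑ k, c k * b k w) (fun w => ∑ k, c k * b k w) < 0) → Fintype.card ι ≤ R) :
    Fintype.card V ≤ (641 * R) ^ (4 * R) := by
  classical
  have hRr : (1 : ℝ) ≤ R := by exact_mod_cast hR
  obtain ⟨K, hKd⟩ : ∃ K : ℝ, K = 1025 * R := ⟨_, rfl⟩
  have hK : 1025 ≤ K := by rw [hKd]; linarith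
  have hneg : ∀ (s : ℕ) (b : Fin s → V → ℝ),
      (∀ c : Fin s → ℝ, c ≠ 0 → bf D (cb b c) (cb b c) < 0) → s ≤ R := by
    intro s b hb
    have := hcard (Fin s) b hb
    rwa [Fintype.card_fin] at this
  obtain ⟨Δ0, hΔ0⟩ : ∃ Δ0 : ℝ, ∀ x y : V, D x y ≤ Δ0 := by
    obtain ⟨p, hp⟩ := Finite.exists_max (fun p : V × V => D p.1 p.2)
    exact ⟨D p.1 p.2, fun x y => hp (x, y)⟩
  obtain ⟨T, ℓ, g1, -, g3, g4⟩ := chain hD hR hneg (K := K) (by linarith) (univ : Finset V).card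
    univ le_rfl univ_nonempty Δ0 (fun x _ y _ => hΔ0 x y)
  have hκ : 128 / K ^ 2 < 1 / (8 * R * K) := by
    rw [div_lt_div_iff₀ (by positivity) (by positivity), hKd]
    have : 0 < (R : ℝ) ^ 2 := by positivity
    nlinarith
  -- residue classes
  have hres : ∀ a < 4, ∑ i ∈ (range T).filter (fun i => i % 4 = a), (ℓ i).s ≤ R := by
    intro a _
    set I := (range T).filter (fun i => i % 4 = a) with hI
    have h1 := hcard (Σ i : I, Fin (ℓ i).s) (fun p => (ℓ p.1).b p.2) (by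
      intro c hc
      have h2 := block hD (by linarith : (8 : ℝ) ≤ K) hκ g1 g3 I (filter_subset _ _)
        (fun i hi j hj hij => by
          rw [hI, mem_filter] at hi hj
          omega)
        (fun i k => if h : i ∈ I then c ⟨⟨i, h⟩, k⟩ else 0) (by
          obtain ⟨⟨i, k⟩, hik⟩ := Function.ne_iff.1 hc
          refine ⟨i, i.2, fun h0 => hik ?_⟩
          have := congrFun h0 k
          simp only [dif_pos i.2] at this
          exact this)
      have h3 : (fun w => ∑ i ∈ I, cb (ℓ i).b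
          (fun k => if h : i ∈ I then c ⟨⟨i, h⟩, k⟩ else 0) w) =
          fun w => ∑ p : Σ i : I, Fin (ℓ i).s, c p * (ℓ p.1).b p.2 w := by
        funext w
        rw [Fintype.sum_sigma, ← sum_coe_sort I]
        refine sum_congr rfl fun i _ => ?_
        unfold cb
        refine sum_congr rfl fun k _ => ?_
        simp only [dif_pos i.2]
      rw [h3] at h2
      exact h2)
    rw [Fintype.card_sigma] at h1
    simp only [Fintype.card_fin] at h1
    rwa [sum_coe_sort I (fun i => (ℓ i).s)] at h1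
  have htot : ∑ i ∈ range T, (ℓ i).s ≤ 4 * R := by
    rw [← sum_fiberwise_of_maps_to (s := range T) (t := range 4) (g := fun i => i % 4)
      (fun i _ => mem_range.2 (Nat.mod_lt _ (by norm_num)))]
    refine (sum_le_sum fun a ha => hres a (mem_range.1 ha)).trans ?_
    rw [sum_const, card_range, smul_eq_mul]
  rw [card_univ] at g4
  have h1 : (1 : ℝ) ≤ 400 * K * R := by nlinarith
  have h2 : (400 * K * R) ^ (∑ i ∈ range T, (ℓ i).s) ≤ (400 * K * R) ^ (4 * R) :=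
    pow_le_pow_right₀ h1 htot
  have h3 : (400 * K * R) ^ (4 * R) ≤ ((641 * R : ℝ) ^ (4 * R)) ^ 2 := by
    have e3 : ((641 * R : ℝ) ^ (4 * R)) ^ 2 = ((641 * R : ℝ) ^ 2) ^ (4 * R) := by
      rw [← pow_mul, ← pow_mul, Nat.mul_comm]
    rw [e3]
    have e1 : 400 * K * R ≤ (641 * (R : ℝ)) ^ 2 := by
      rw [hKd]
      nlinarith
    have e2 : 0 ≤ 400 * K * R := by linarith
    exact pow_le_pow_left₀ e2 e1 _
  have h5 := g4.trans (h2.trans h3)
  have h4 : ((Fintype.card V : ℝ)) ≤ (641 * R : ℝ) ^ (4 * R) := by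
    by_contra hcon
    have h6 : 0 ≤ (641 * R : ℝ) ^ (4 * R) := by positivity
    nlinarith [not_le.1 hcon]
  exact_mod_cast h4

end

end Pool.Agent.Y356.WD
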