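import Pool.Agent.Results.MP_0b3830_co.FailsForAllNAtLeastTwo
import Pool.Agent.Y356.WD.Code

/-!
# Metrics with few nonpositive eigenvalues
-/

set_option autoImplicit false

namespace Pool.Agent.Y356.WD

open Finset Matrix
open Pool.Agent.Results.MP_0b3830_co.FailsForAllNAtLeastTwo

section

variable {V : Type} [DecidableEq V] {d : ℕ}

/-- the metric -/
noncomputable def dm (M : ℝ) (u : V → (Fin d → Bool)) (x y : V) : ℝ :=
  3 * M - ip (u x) (u y) + if x = y then (d : ℝ) - 3 * M else 0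

lemma dm_self (M : ℝ) (u : V → (Fin d → Bool)) (x : V) : dm M u x x = 0 := by
  unfold dm
  rw [ip_self, if_pos rfl]
  ring

lemma dm_symm (M : ℝ) (u : V → (Fin d → Bool)) (x y : V) : dm M u x y = dm M u y x := by
  unfold dm
  rw [ip_comm]
  by_cases h : x = y
  · rw [if_pos h, if_pos h.symm]
  · rw [if_neg h, if_neg (Ne.symm h)]

lemma dm_bd {M : ℝ} {u : V → (Fin d → Bool)} (hu : ∀ x y, x ≠ y → |ip (u x) (u y)| ≤ M)
    {x y : V} (h : x ≠ y) : 2 * M ≤ dm M u x y ∧ dm M u x y ≤ 4 * M := by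
  unfold dm
  rw [if_neg h]
  have h1 := abs_le.1 (hu x y h)
  constructor <;> linarith [h1.1, h1.2]

lemma dm_tri {M : ℝ} (hM : 0 < M) {u : V → (Fin d → Bool)}
    (hu : ∀ x y, x ≠ y → |ip (u x) (u y)| ≤ M) (x y z : V) :
    dm M u x z ≤ dm M u x y + dm M u y z := by
  by_cases h1 : x = y
  · subst h1
    rw [dm_self, zero_add]
  by_cases h2 : y = z
  · subst h2
    rw [dm_self, add_zero]
  have h3 := (dm_bd hu h1).1
  have h4 := (dm_bd hu h2).1
  by_cases h5 : x = z
  · subst h5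
    rw [dm_self]
    linarith
  · have h6 := (dm_bd hu h5).2
    linarith

/-- the weighting of the complete graph -/
noncomputable def wm (M : ℝ) (u : V → (Fin d → Bool)) : Sym2 V → ℝ :=
  Sym2.lift ⟨dm M u, fun x y => dm_symm M u x y⟩

lemma distMatrix_wm {M : ℝ} (hM : 0 < M) {u : V → (Fin d → Bool)}
    (hu : ∀ x y, x ≠ y → |ip (u x) (u y)| ≤ M) :
    distMatrix (⊤ : SimpleGraph V) (wm M u) = Matrix.of (dm M u) :=
  distMatrix_top _ (dm_self M u) (fun x y z => dm_tri hM hu x y z) _ (fun _ _ => rfl)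

lemma wm_pos {M : ℝ} (hM : 0 < M) {u : V → (Fin d → Bool)}
    (hu : ∀ x y, x ≠ y → |ip (u x) (u y)| ≤ M) :
    ∀ e ∈ (⊤ : SimpleGraph V).edgeSet, 0 < wm M u e := by
  intro e he
  induction e using Sym2.ind with
  | _ x y =>
    rw [SimpleGraph.mem_edgeSet, SimpleGraph.top_adj] at he
    have h1 := (dm_bd hu he).1
    show 0 < dm M u x y
    linarith

variable [Fintype V]

/-- the transposed matrix of the vectors -/
noncomputable def TT (u : V → (Fin d → Bool)) : (V → ℝ) →ₗ[ℝ] (Fin d → ℝ) where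
  toFun x i := ∑ v, x v * sg (u v i)
  map_add' x y := by
    funext i
    simp [add_mul, sum_add_distrib]
  map_smul' r x := by
    funext i
    simp [mul_sum, mul_assoc]

lemma mulVec_dm {M : ℝ} {u : V → (Fin d → Bool)} {x : V → ℝ} (hx : TT u x = 0) (v : V) :
    (Matrix.of (dm M u) *ᵥ x) v = 3 * M * (∑ w, x w) + ((d : ℝ) - 3 * M) * x v := by
  have h1 : (Matrix.of (dm M u) *ᵥ x) v = ∑ w, dm M u v w * x w := rfl
  have h2 : ∀ w, dm M u v w * x w = 3 * M * x w - ip (u v) (u w) * x w +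
      (if v = w then ((d : ℝ) - 3 * M) * x w else 0) := by
    intro w
    unfold dm
    split_ifs <;> ring
  have h3 : ∑ w, ip (u v) (u w) * x w = 0 := by
    have h4 : ∀ w, ip (u v) (u w) * x w = ∑ i, sg (u v i) * (x w * sg (u w i)) := by
      intro w
      rw [ip, sum_mul]
      exact sum_congr rfl fun i _ => by ring
    simp_rw [h4]
    rw [sum_comm]
    apply sum_eq_zero
    intro i _
    rw [← mul_sum]
    have h5 : ∑ w, x w * sg (u w i) = 0 := congrFun hx i
    rw [h5, mul_zero]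
  rw [h1]
  simp_rw [h2]
  rw [sum_add_distrib, sum_sub_distrib, h3, sub_zero, ← mul_sum, sum_ite_eq, if_pos (mem_univ _)]

lemma quad_dm {M : ℝ} {u : V → (Fin d → Bool)} {x : V → ℝ} (hx : TT u x = 0) :
    x ⬝ᵥ (Matrix.of (dm M u) *ᵥ x) =
      3 * M * (∑ w, x w) ^ 2 + ((d : ℝ) - 3 * M) * ∑ w, x w ^ 2 := by
  unfold dotProduct
  simp_rw [mulVec_dm hx, mul_add]
  rw [sum_add_distrib]
  have e1 : ∑ v, x v * (3 * M * ∑ w, x w) = 3 * M * (∑ w, x w) ^ 2 := by
    rw [← sum_mul]
    ring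
  have e2 : ∑ v, x v * (((d : ℝ) - 3 * M) * x v) = ((d : ℝ) - 3 * M) * ∑ w, x w ^ 2 := by
    rw [mul_sum]
    exact sum_congr rfl fun w _ => by ring
  rw [e1, e2]

theorem numPos_dm {M : ℝ} (hM : 0 < M) (hMd : 3 * M < d) (u : V → (Fin d → Bool)) :
    Fintype.card V ≤ numPos (Matrix.of (dm M u)) + d := by
  classical
  have hherm : (Matrix.of (dm M u)).IsHermitian := by
    ext x y
    simp only [Matrix.conjTranspose_apply, Matrix.of_apply, star_trivial]
    exact dm_symm M u y x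
  set K := LinearMap.ker (TT u) with hK
  have h1 : Fintype.card V ≤ Module.finrank ℝ K + d := by
    have h2 := LinearMap.finrank_range_add_finrank_ker (TT u)
    have h3 : Module.finrank ℝ (LinearMap.range (TT u)) ≤ d := by
      have h4 := Submodule.finrank_le (LinearMap.range (TT u))
      rwa [Module.finrank_fintype_fun_eq_card, Fintype.card_fin] at h4
    rw [Module.finrank_fintype_fun_eq_card, ← hK] at h2
    omega
  set b := Module.finBasis ℝ K with hb
  let L : (Fin (Module.finrank ℝ K) → ℝ) →ₗ[ℝ] (V → ℝ) :=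
    K.subtype ∘ₗ b.equivFun.symm.toLinearMap
  have h2 := card_le_numPos hherm L (by
    intro c hc
    set y : K := b.equivFun.symm c with hy
    have hy0 : y ≠ 0 := by
      intro h
      apply hc
      rw [hy] at h
      exact (LinearEquiv.map_eq_zero_iff _).1 h
    have hyT : TT u (y : V → ℝ) = 0 := LinearMap.mem_ker.1 y.2
    show 0 < (y : V → ℝ) ⬝ᵥ (Matrix.of (dm M u) *ᵥ (y : V → ℝ))
    rw [quad_dm hyT]
    have h3 : 0 < ∑ w, (y : V → ℝ) w ^ 2 := by
      have h4 : (y : V → ℝ) ≠ 0 := fun h => hy0 (Subtype.ext h)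
      obtain ⟨w, hw⟩ := Function.ne_iff.1 h4
      refine sum_pos' (fun _ _ => sq_nonneg _) ⟨w, mem_univ _, ?_⟩
      have : (y : V → ℝ) w ≠ 0 := hw
      positivity
    have h4 : 0 < (d : ℝ) - 3 * M := by linarith
    positivity)
  rw [Fintype.card_fin] at h2
  omega

end

/-- For all `N` and `d` such that `N` is at most exponential in `d`, the complete graph on `N`
vertices has a positive weighting with at least `N - d` positive eigenvalues. -/
theorem complete_weighting {d : ℕ} {M : ℝ} (hM : 0 < M) (hMd : 3 * M < d) {N : ℕ}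
    (hN : (N : ℝ) * (2 * Real.exp (-(M ^ 2 / (2 * d)))) ≤ 1) :
    ∃ φ : Sym2 (Fin N) → ℝ, (∀ e ∈ (⊤ : SimpleGraph (Fin N)).edgeSet, 0 < φ e) ∧
      N ≤ numPos (distMatrix (⊤ : SimpleGraph (Fin N)) φ) + d := by
  obtain ⟨u, hu⟩ := exists_code hM.le (by linarith) hN
  refine ⟨wm M u, wm_pos hM hu, ?_⟩
  rw [distMatrix_wm hM hu]
  have h1 := numPos_dm hM hMd u
  rwa [Fintype.card_fin] at h1

end Pool.Agent.Y356.WD
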