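import Pool.Agent.Results.MP_0b3830_co.FailsForAllNAtLeastTwo

/-!
# Counting nonpositive eigenvalues; spectral data
-/

set_option autoImplicit false

namespace Pool.Agent.Y356.WD

open Finset Matrix
open Pool.Agent.Results.MP_0b3830_co.FailsForAllNAtLeastTwo

/-- If the quadratic form of the symmetric matrix `M` is negative on the nonzero values of a
linear map from `ℝ^ι`, then `M` has at least `|ι|` eigenvalues which are not positive. -/
lemma card_add_numPos_le {V ι : Type} [Fintype V] [DecidableEq V] [Fintype ι] {M : Matrix V V ℝ}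
    (hM : M.IsHermitian) (L : (ι → ℝ) →ₗ[ℝ] (V → ℝ))
    (hL : ∀ c, c ≠ 0 → (L c) ⬝ᵥ (M *ᵥ (L c)) < 0) :
    Fintype.card ι + numPos M ≤ Fintype.card V := by
  classical
  rw [numPos_eq hM]
  set P := univ.filter (fun i => ¬ 0 < hM.eigenvalues i) with hP
  let T : (ι → ℝ) →ₗ[ℝ] (P → ℝ) :=
    { toFun := fun c i => ((hM.eigenvectorBasis i : EuclideanSpace ℝ V) : V → ℝ) ⬝ᵥ (L c)
      map_add' := by
        intro c d
        funext i
        simp [dotProduct_add]
      map_smul' := by
        intro r c
        funext i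
        simp [dotProduct_smul] }
  have hT : Function.Injective T := by
    rw [← LinearMap.ker_eq_bot, LinearMap.ker_eq_bot']
    intro c hc
    by_contra hne
    have h1 := hL c hne
    rw [quad_eq hM] at h1
    have h2 : 0 ≤ ∑ i, hM.eigenvalues i *
        (((hM.eigenvectorBasis i : EuclideanSpace ℝ V) : V → ℝ) ⬝ᵥ (L c)) ^ 2 := by
      apply Finset.sum_nonneg
      intro i _
      by_cases hi : 0 < hM.eigenvalues i
      · exact mul_nonneg hi.le (sq_nonneg _)
      · have h3 := congrFun hc ⟨i, by rw [hP, Finset.mem_filter]; exact ⟨Finset.mem_univ _, hi⟩⟩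
        have h4 : ((hM.eigenvectorBasis i : EuclideanSpace ℝ V) : V → ℝ) ⬝ᵥ (L c) = 0 := h3
        rw [h4]
        simp
    linarith
  have h5 := LinearMap.finrank_le_finrank_of_injective hT
  rw [Module.finrank_fintype_fun_eq_card, Module.finrank_fintype_fun_eq_card,
    Fintype.card_coe] at h5
  have h6 := Finset.card_filter_add_card_filter_not (s := (univ : Finset V))
    (fun i => 0 < hM.eigenvalues i)
  rw [Finset.card_univ, ← hP] at h6
  omega

/-- the spectral theorem, in coordinates -/
lemma spectral {W : Type} [Fintype W] [DecidableEq W] {B : W → W → ℝ}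
    (hB : ∀ x y, B x y = B y x) :
    ∃ (β : W → ℝ) (v : W → W → ℝ), (∀ k l, ∑ w, v k w * v l w = if k = l then 1 else 0) ∧
      (∀ f : W → ℝ, ∑ x, ∑ y, f x * f y * B x y = ∑ k, β k * (∑ w, v k w * f w) ^ 2) ∧
      ∀ k w, ∑ y, B w y * v k y = β k * v k w := by
  have hM : (Matrix.of B).IsHermitian := by
    ext x y
    simp only [Matrix.conjTranspose_apply, Matrix.of_apply, star_trivial]
    exact hB y x
  refine ⟨hM.eigenvalues, fun k w => (hM.eigenvectorBasis k : EuclideanSpace ℝ W) w, ?_, ?_, ?_⟩
  · intro k l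
    have h1 := orthonormal_iff_ite.1 hM.eigenvectorBasis.orthonormal k l
    rw [← h1]
    simp [PiLp.inner_apply, mul_comm]
  · intro f
    have h1 := quad_eq hM f
    rw [show f ⬝ᵥ (Matrix.of B *ᵥ f) = ∑ x, ∑ y, f x * f y * B x y by
      unfold Matrix.mulVec dotProduct
      refine sum_congr rfl fun x _ => ?_
      rw [mul_sum]
      refine sum_congr rfl fun y _ => ?_
      simp only [Matrix.of_apply]
      ring] at h1
    rw [h1]
    rfl
  · intro k w
    have h1 := congrFun (hM.mulVec_eigenvectorBasis k) w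
    have h2 : (Matrix.of B *ᵥ ⇑(hM.eigenvectorBasis k)) w =
      ∑ y, B w y * (hM.eigenvectorBasis k : EuclideanSpace ℝ W) y := rfl
    rw [← h2, h1]
    rfl

end Pool.Agent.Y356.WD
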