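import Mathlib

/-!
# Packing bound
-/

set_option autoImplicit false

namespace Pool.Agent.Y356.WD

open Module MeasureTheory Metric Set Function ENNReal

/-- A set of points with mutual distances at least `1` in the ball of radius `ρ`. -/
theorem packing {E : Type*} [NormedAddCommGroup E] [NormedSpace ℝ E] [FiniteDimensional ℝ E]
    {ι : Type*} (s : Finset ι) (q : ι → E) {ρ : ℝ} (hρ : 0 ≤ ρ) (hs : ∀ c ∈ s, ‖q c‖ ≤ ρ)
    (h : ∀ c ∈ s, ∀ d ∈ s, c ≠ d → 1 ≤ ‖q c - q d‖) :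
    (s.card : ℝ) ≤ (1 + 2 * ρ) ^ finrank ℝ E := by
  borelize E
  let μ : Measure E := Measure.addHaar
  obtain ⟨δ, hδ⟩ : ∃ δ : ℝ, δ = 1 / 2 := ⟨_, rfl⟩
  have hδ0 : 0 < δ := by rw [hδ]; norm_num
  obtain ⟨r, hr⟩ : ∃ r : ℝ, r = ρ + 1 / 2 := ⟨_, rfl⟩
  have rpos : 0 < r := by rw [hr]; positivity
  set A := ⋃ c ∈ s, ball (q c) δ with hA
  have D : Set.Pairwise (s : Set ι) (Disjoint on fun c => ball (q c) δ) := by
    rintro c hc d hd hcd
    apply ball_disjoint_ball
    rw [dist_eq_norm]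
    have := h c hc d hd hcd
    rw [hδ]
    linarith
  have A_subset : A ⊆ ball (0 : E) r := by
    refine iUnion₂_subset fun x hx => ?_
    apply ball_subset_ball'
    rw [dist_zero_right, hδ, hr]
    linarith [hs x hx]
  have I : (s.card : ℝ≥0∞) * ENNReal.ofReal (δ ^ finrank ℝ E) * μ (ball 0 1) ≤
      ENNReal.ofReal (r ^ finrank ℝ E) * μ (ball 0 1) :=
    calc
      (s.card : ℝ≥0∞) * ENNReal.ofReal (δ ^ finrank ℝ E) * μ (ball 0 1) = μ A := by
        rw [hA, measure_biUnion_finset D fun c _ => measurableSet_ball]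
        simp only [μ.addHaar_ball_of_pos _ hδ0]
        simp only [Finset.sum_const, nsmul_eq_mul, mul_assoc]
      _ ≤ μ (ball (0 : E) r) := measure_mono A_subset
      _ = ENNReal.ofReal (r ^ finrank ℝ E) * μ (ball 0 1) := by
        simp only [μ.addHaar_ball_of_pos _ rpos]
  have J : (s.card : ℝ≥0∞) * ENNReal.ofReal (δ ^ finrank ℝ E) ≤
      ENNReal.ofReal (r ^ finrank ℝ E) :=
    (ENNReal.mul_le_mul_iff_left (measure_ball_pos _ _ zero_lt_one).ne' measure_ball_lt_top.ne).1 I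
  have K : (s.card : ℝ) * δ ^ finrank ℝ E ≤ r ^ finrank ℝ E := by
    have h1 := ENNReal.toReal_le_of_le_ofReal (pow_nonneg rpos.le _) J
    rwa [ENNReal.toReal_mul, ENNReal.toReal_natCast, ENNReal.toReal_ofReal (by positivity)] at h1
  have e : r ^ finrank ℝ E = (1 + 2 * ρ) ^ finrank ℝ E * δ ^ finrank ℝ E := by
    rw [← mul_pow]
    congr 1
    rw [hr, hδ]
    ring
  rw [e] at K
  exact le_of_mul_le_mul_right K (by positivity)

end Pool.Agent.Y356.WD
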