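import Pool.Agent.Y356.WD.Neg
import Pool.Agent.Y356.WD.Pack

/-!
# Metrics at one scale have many negative directions
-/

set_option autoImplicit false

namespace Pool.Agent.Y356.WD

open Finset

/-- the bilinear form -/
def bf {W : Type} [Fintype W] (D : W → W → ℝ) (f g : W → ℝ) : ℝ := ∑ x, ∑ y, f x * g y * D x y

/-- combinations of functions -/
def cb {W : Type} {s : ℕ} (b : Fin s → W → ℝ) (c : Fin s → ℝ) (w : W) : ℝ := ∑ k, c k * b k w

section

variable {W : Type} [Fintype W] [DecidableEq W]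

/-- the compression of `-D` to the functions with sum zero -/
noncomputable def Bm (D : W → W → ℝ) (x y : W) : ℝ :=
  (∑ z, D x z) / Fintype.card W + (∑ z, D y z) / Fintype.card W -
    (∑ z, ∑ t, D z t) / (Fintype.card W) ^ 2 - D x y

lemma Bm_symm {D : W → W → ℝ} (hD : ∀ x y, D x y = D y x) (x y : W) : Bm D x y = Bm D y x := by
  unfold Bm
  rw [hD x y]
  ring

lemma Bm_sum {D : W → W → ℝ} (hD : ∀ x y, D x y = D y x) (hW : 0 < Fintype.card W) (y : W) :
    ∑ x, Bm D x y = 0 := by
  have hm : (Fintype.card W : ℝ) ≠ 0 := by exact_mod_cast hW.ne'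
  unfold Bm
  rw [sum_sub_distrib, sum_sub_distrib, sum_add_distrib, ← sum_div, sum_const, sum_const, card_univ,
    nsmul_eq_mul, nsmul_eq_mul]
  have h1 : ∑ x, D x y = ∑ z, D y z := sum_congr rfl fun x _ => hD x y
  rw [h1]
  field_simp
  ring

lemma Bm_form {D : W → W → ℝ} {f : W → ℝ} (hf : ∑ w, f w = 0) :
    ∑ x, ∑ y, f x * f y * Bm D x y = -bf D f f := by
  unfold Bm bf
  obtain ⟨a, ha⟩ : ∃ a : W → ℝ, ∀ x, a x = (∑ z, D x z) / Fintype.card W := ⟨_, fun _ => rfl⟩
  obtain ⟨e, he⟩ : ∃ e : ℝ, e = (∑ z, ∑ t, D z t) / (Fintype.card W) ^ 2 := ⟨_, rfl⟩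
  simp only [← ha, ← he]
  have h1 : ∀ x, ∑ y, f x * f y * (a x + a y - e - D x y) =
      f x * (∑ y, f y * a y) - ∑ y, f x * f y * D x y := by
    intro x
    have h2 : ∀ y, f x * f y * (a x + a y - e - D x y) =
        (f x * (a x - e)) * f y + f x * (f y * a y) - f x * f y * D x y := fun y => by ring
    simp_rw [h2]
    rw [sum_sub_distrib, sum_add_distrib, ← mul_sum, ← mul_sum, hf, mul_zero, zero_add]
  simp_rw [h1]
  rw [sum_sub_distrib, ← sum_mul, hf, zero_mul, zero_sub]

lemma sum_abs_sq_le (f : W → ℝ) : (∑ w, |f w|) ^ 2 ≤ Fintype.card W * ∑ w, f w ^ 2 := by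
  have h1 := sq_sum_le_card_mul_sum_sq (s := (univ : Finset W)) (f := fun w => |f w|)
  simpa [card_univ, sq_abs] using h1

/-- a metric with distances between `1` and `K` -/
theorem one_scale {D : W → W → ℝ} (hD : ∀ x y, D x y = D y x) (h0 : ∀ x, D x x = 0) {K : ℝ}
    (hK : 1 ≤ K) (h1 : ∀ x y, x ≠ y → 1 ≤ D x y) (h2 : ∀ x y, D x y ≤ K)
    (hW : 2 ≤ Fintype.card W) {R : ℕ} (hR : 1 ≤ R)
    (hneg : ∀ (s : ℕ) (b : Fin s → W → ℝ),
      (∀ c : Fin s → ℝ, c ≠ 0 → bf D (cb b c) (cb b c) < 0) → s ≤ R) :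
    ∃ (s : ℕ) (b : Fin s → W → ℝ), 1 ≤ s ∧ (∀ k, ∑ w, b k w = 0) ∧
      (∀ c : Fin s → ℝ, c ≠ 0 → cb b c ≠ 0 ∧
        bf D (cb b c) (cb b c) ≤ -(1 / (8 * R)) * (∑ w, |cb b c w|) ^ 2) ∧
      (Fintype.card W : ℝ) ^ 2 ≤ (400 * K * R) ^ s := by
  classical
  obtain ⟨m, hm⟩ : ∃ m : ℝ, m = Fintype.card W := ⟨_, rfl⟩
  have hm2 : 2 ≤ m := by rw [hm]; exact_mod_cast hW
  have hRr : (1 : ℝ) ≤ R := by exact_mod_cast hR
  have hDnn : ∀ x y, 0 ≤ D x y := by
    intro x y
    by_cases h : x = y
    · rw [h, h0]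
    · linarith [h1 x y h]
  obtain ⟨β, v, hv1, hv2, hv3⟩ := spectral (Bm_symm hD)
  -- eigenvectors have sum zero
  have hv0 : ∀ k, β k ≠ 0 → ∑ w, v k w = 0 := by
    intro k hk
    have e1 : β k * ∑ w, v k w = ∑ w, ∑ y, Bm D w y * v k y := by
      rw [mul_sum]
      exact sum_congr rfl fun w _ => (hv3 k w).symm
    rw [sum_comm] at e1
    have e2 : ∀ y, ∑ x, Bm D x y * v k y = 0 := by
      intro y
      rw [← sum_mul, Bm_sum hD (by omega) y, zero_mul]
    rw [sum_congr rfl fun y _ => e2 y, sum_const_zero] at e1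
    exact (mul_eq_zero.1 e1).resolve_left hk
  have hvn : ∀ k, ∑ w, v k w ^ 2 = 1 := by
    intro k
    have := hv1 k k
    rw [if_pos rfl] at this
    rw [← this]
    exact sum_congr rfl fun w _ => sq _
  -- families of eigenvectors
  have hfam : ∀ (P : Finset W), (∀ k ∈ P, 0 < β k) → ∀ c : Fin P.card → ℝ,
      (∑ w, cb (fun i => v (P.equivFin.symm i)) c w ^ 2 = ∑ i, c i ^ 2) ∧
      bf D (cb (fun i => v (P.equivFin.symm i)) c) (cb (fun i => v (P.equivFin.symm i)) c) =
        -∑ i, β (P.equivFin.symm i) * c i ^ 2 := by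
    intro P hP c
    set e := P.equivFin with he
    have hin : ∀ i j : Fin P.card, ∑ w, v (e.symm i) w * v (e.symm j) w =
        if i = j then 1 else 0 := by
      intro i j
      rw [hv1]
      by_cases h : i = j
      · rw [h, if_pos rfl, if_pos rfl]
      · rw [if_neg h, if_neg]
        intro h'
        exact h (e.symm.injective (Subtype.ext h'))
    have hdot : ∀ k, ∑ w, v k w * cb (fun i => v (e.symm i)) c w =
        ∑ i, c i * ∑ w, v k w * v (e.symm i) w := by
      intro k
      unfold cb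
      simp_rw [mul_sum]
      rw [sum_comm]
      exact sum_congr rfl fun i _ => sum_congr rfl fun w _ => by ring
    have hsum0 : ∑ w, cb (fun i => v (e.symm i)) c w = 0 := by
      unfold cb
      rw [sum_comm]
      apply sum_eq_zero
      intro i _
      rw [← mul_sum, hv0 _ (hP _ (e.symm i).2).ne', mul_zero]
    constructor
    · have e1 : ∑ w, cb (fun i => v (e.symm i)) c w ^ 2 =
          ∑ i, c i * ∑ w, v (e.symm i) w * cb (fun i => v (e.symm i)) c w := by
        simp_rw [mul_sum]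
        rw [sum_comm]
        refine sum_congr rfl fun w _ => ?_
        have : cb (fun i => v (e.symm i)) c w ^ 2 =
            (∑ i, c i * v (e.symm i) w) * cb (fun i => v (e.symm i)) c w := by
          rw [sq]; rfl
        rw [this, sum_mul]
        exact sum_congr rfl fun i _ => by ring
      rw [e1]
      refine sum_congr rfl fun i _ => ?_
      rw [hdot]
      simp_rw [hin]
      simp [sq]
    · have e1 := hv2 (cb (fun i => v (e.symm i)) c)
      rw [Bm_form hsum0] at e1
      have e2 : ∑ k, β k * (∑ w, v k w * cb (fun i => v (e.symm i)) c w) ^ 2 =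
          ∑ i, β (e.symm i) * c i ^ 2 := by
        have e3 : ∀ k, k ∉ P → β k * (∑ w, v k w * cb (fun i => v (e.symm i)) c w) ^ 2 = 0 := by
          intro k hk
          rw [hdot]
          have e4 : ∀ i : Fin P.card, c i * ∑ w, v k w * v (e.symm i) w = 0 := by
            intro i
            rw [hv1, if_neg, mul_zero]
            rintro rfl
            exact hk (e.symm i).2
          rw [sum_congr rfl fun i _ => e4 i]
          simp
        rw [← sum_subset (subset_univ P) fun k _ hk => e3 k hk, ← sum_coe_sort P]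
        refine (Equiv.sum_comp e.symm _).symm.trans ?_
        refine sum_congr rfl fun i _ => ?_
        rw [hdot]
        simp_rw [hin]
        simp
      rw [e2] at e1
      linarith
  -- the positive eigenvalues
  set P := univ.filter (fun k => 0 < β k) with hP
  have hPpos : ∀ k ∈ P, 0 < β k := fun k hk => (mem_filter.1 hk).2
  have hPR : P.card ≤ R := by
    apply hneg P.card (fun i => v (P.equivFin.symm i))
    intro c hc
    rw [(hfam P hPpos c).2]
    obtain ⟨i, hi⟩ := Function.ne_iff.1 hc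
    have : 0 < ∑ i, β (P.equivFin.symm i) * c i ^ 2 := by
      refine sum_pos' (fun i _ => mul_nonneg (hPpos _ (P.equivFin.symm i).2).le (sq_nonneg _))
        ⟨i, mem_univ _, mul_pos (hPpos _ (P.equivFin.symm i).2) ?_⟩
      have : c i ≠ 0 := hi
      positivity
    linarith
  have hβK : ∀ k ∈ P, β k ≤ K * m := by
    intro k hk
    have e1 := hv2 (v k)
    rw [Bm_form (hv0 k (hPpos k hk).ne')] at e1
    have e2 : ∑ l, β l * (∑ w, v l w * v k w) ^ 2 = β k := by
      rw [sum_eq_single k]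
      · rw [hv1, if_pos rfl]; ring
      · intro l _ hl
        rw [hv1, if_neg hl]; ring
      · intro h; exact absurd (mem_univ k) h
    rw [e2] at e1
    have e3 : -bf D (v k) (v k) ≤ K * (∑ w, |v k w|) ^ 2 := by
      unfold bf
      rw [← sum_neg_distrib, sq, sum_mul_sum, mul_sum]
      refine sum_le_sum fun x _ => ?_
      rw [← sum_neg_distrib, mul_sum]
      refine sum_le_sum fun y _ => ?_
      have e4 : -(v k x * v k y * D x y) ≤ |v k x| * |v k y| * D x y := by
        rw [← abs_mul]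
        have := neg_abs_le (v k x * v k y)
        nlinarith [hDnn x y]
      refine e4.trans ?_
      have e5 : 0 ≤ |v k x| * |v k y| := by positivity
      nlinarith [h2 x y]
    have e4 := sum_abs_sq_le (v k)
    rw [hvn, mul_one, ← hm] at e4
    calc β k = -bf D (v k) (v k) := e1.symm
      _ ≤ K * (∑ w, |v k w|) ^ 2 := e3
      _ ≤ K * m := mul_le_mul_of_nonneg_left e4 (by linarith)
  -- large and small eigenvalues
  set τ : ℝ := m / (8 * R) with hτ
  have hτ0 : 0 < τ := by positivity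
  set Lg := P.filter (fun k => τ ≤ β k) with hLg
  set Sm := P.filter (fun k => ¬ τ ≤ β k) with hSm
  obtain ⟨σ, hσ⟩ : ∃ σ : W → ℝ, ∀ w, σ w = ∑ k ∈ Sm, β k * v k w ^ 2 := ⟨_, fun _ => rfl⟩
  obtain ⟨ρ, hρ⟩ : ∃ ρ : W → ℝ, ∀ w, ρ w = ∑ k ∈ Lg, β k * v k w ^ 2 := ⟨_, fun _ => rfl⟩
  have hσ0 : ∀ w, 0 ≤ σ w := by
    intro w
    rw [hσ]
    exact sum_nonneg fun k hk => mul_nonneg (hPpos k (mem_filter.1 hk).1).le (sq_nonneg _)
  have hρ0 : ∀ w, 0 ≤ ρ w := by
    intro w
    rw [hρ]
    exact sum_nonneg fun k hk => mul_nonneg (hPpos k (mem_filter.1 hk).1).le (sq_nonneg _)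
  have hσs : ∑ w, σ w ≤ m / 8 := by
    simp_rw [hσ]
    rw [sum_comm]
    have e1 : ∀ k ∈ Sm, ∑ w, β k * v k w ^ 2 ≤ τ := by
      intro k hk
      rw [← mul_sum, hvn, mul_one]
      exact (not_le.1 (mem_filter.1 hk).2).le
    refine (sum_le_sum e1).trans ?_
    rw [sum_const, nsmul_eq_mul]
    have e2 : (Sm.card : ℝ) ≤ R := by
      exact_mod_cast (card_filter_le _ _).trans hPR
    calc (Sm.card : ℝ) * τ ≤ R * τ := mul_le_mul_of_nonneg_right e2 hτ0.le
      _ = m / 8 := by rw [hτ]; field_simp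
  have hρs : ∑ w, ρ w ≤ R * (K * m) := by
    simp_rw [hρ]
    rw [sum_comm]
    have e1 : ∀ k ∈ Lg, ∑ w, β k * v k w ^ 2 ≤ K * m := by
      intro k hk
      rw [← mul_sum, hvn, mul_one]
      exact hβK k (mem_filter.1 hk).1
    refine (sum_le_sum e1).trans ?_
    rw [sum_const, nsmul_eq_mul]
    have e2 : (Lg.card : ℝ) ≤ R := by
      exact_mod_cast (card_filter_le _ _).trans hPR
    exact mul_le_mul_of_nonneg_right e2 (by positivity)
  -- distances
  have hdist : ∀ x y, x ≠ y → 2 ≤ ∑ k ∈ Lg, β k * (v k x - v k y) ^ 2 + 2 * (σ x + σ y) := by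
    intro x y hxy
    have e1 := hv2 (fun w => (if w = x then 1 else 0) - (if w = y then 1 else 0))
    have e0 : ∑ w, ((if w = x then (1 : ℝ) else 0) - (if w = y then 1 else 0)) = 0 := by
      rw [sum_sub_distrib]; simp
    rw [Bm_form e0] at e1
    have e2 : bf D (fun w => (if w = x then 1 else 0) - (if w = y then 1 else 0))
        (fun w => (if w = x then 1 else 0) - (if w = y then 1 else 0)) = -(2 * D x y) := by
      unfold bf
      simp only [sub_mul, mul_sub, sum_sub_distrib, ite_mul, mul_ite, one_mul, mul_one, zero_mul,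
        mul_zero, sum_ite_eq', mem_univ, if_true]
      rw [h0 x, h0 y, hD y x]
      ring
    rw [e2, neg_neg] at e1
    have e3 : ∀ k, ∑ w, v k w * ((if w = x then (1 : ℝ) else 0) - (if w = y then 1 else 0)) =
        v k x - v k y := by
      intro k
      simp [mul_sub, sum_sub_distrib]
    simp_rw [e3] at e1
    have e4 : ∑ k, β k * (v k x - v k y) ^ 2 ≤ ∑ k ∈ P, β k * (v k x - v k y) ^ 2 := by
      rw [← sum_filter_add_sum_filter_not univ (fun k => 0 < β k)]
      have : ∑ k ∈ univ.filter (fun k => ¬ 0 < β k), β k * (v k x - v k y) ^ 2 ≤ 0 :=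
        sum_nonpos fun k hk => mul_nonpos_of_nonpos_of_nonneg (not_lt.1 (mem_filter.1 hk).2)
          (sq_nonneg _)
      linarith
    have e5 : ∑ k ∈ P, β k * (v k x - v k y) ^ 2 = ∑ k ∈ Lg, β k * (v k x - v k y) ^ 2 +
        ∑ k ∈ Sm, β k * (v k x - v k y) ^ 2 :=
      (sum_filter_add_sum_filter_not P (fun k => τ ≤ β k) _).symm
    have e6 : ∑ k ∈ Sm, β k * (v k x - v k y) ^ 2 ≤ 2 * (σ x + σ y) := by
      rw [hσ, hσ, ← sum_add_distrib, mul_sum]
      refine sum_le_sum fun k hk => ?_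
      have := hPpos k (mem_filter.1 hk).1
      nlinarith [sq_nonneg (v k x + v k y)]
    have e7 := h1 x y hxy
    linarith
  -- counting
  have hcount : ∀ (g : W → ℝ) (A t : ℝ), (∀ w, 0 ≤ g w) → 0 < t → ∑ w, g w ≤ A →
      ((univ.filter (fun w => t < g w)).card : ℝ) * t ≤ A := by
    intro g A t hg ht hA
    refine le_trans ?_ hA
    rw [← nsmul_eq_mul, ← sum_const]
    refine (sum_le_sum fun w hw => ?_).trans
      (sum_le_sum_of_subset_of_nonneg (filter_subset _ _) fun w _ _ => hg w)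
    exact (mem_filter.1 hw).2.le
  -- there are large eigenvalues
  have hs1 : 1 ≤ Lg.card := by
    by_contra hcon
    have hempty : Lg = ∅ := card_eq_zero.1 (by omega)
    have e1 := hcount σ (m / 8) (3 / 8) hσ0 (by norm_num) hσs
    have e2 := card_filter_add_card_filter_not (s := (univ : Finset W)) (fun w => 3 / 8 < σ w)
    rw [card_univ] at e2
    have e3 : ((univ.filter (fun w => 3 / 8 < σ w)).card : ℝ) +
        ((univ.filter (fun w => ¬ 3 / 8 < σ w)).card : ℝ) = m := by
      rw [hm]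
      exact_mod_cast e2
    have e4 : (1 : ℝ) < ((univ.filter (fun w => ¬ 3 / 8 < σ w)).card : ℝ) := by linarith
    have e5 : 1 < (univ.filter (fun w => ¬ 3 / 8 < σ w)).card := by exact_mod_cast e4
    obtain ⟨x, hx, y, hy, hxy⟩ := one_lt_card.1 e5
    have e6 := hdist x y hxy
    rw [hempty, sum_empty] at e6
    have e7 := not_lt.1 (mem_filter.1 hx).2
    have e8 := not_lt.1 (mem_filter.1 hy).2
    linarith
  have hLpos : ∀ k ∈ Lg, 0 < β k := fun k hk => hPpos k (mem_filter.1 hk).1
  refine ⟨Lg.card, fun i => v (Lg.equivFin.symm i), hs1, fun i => ?_, fun c hc => ?_, ?_⟩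
  · exact hv0 _ (hLpos _ (Lg.equivFin.symm i).2).ne'
  · obtain ⟨f1, f2⟩ := hfam Lg hLpos c
    have hc2 : 0 < ∑ i, c i ^ 2 := by
      obtain ⟨i, hi⟩ := Function.ne_iff.1 hc
      refine sum_pos' (fun i _ => sq_nonneg _) ⟨i, mem_univ _, ?_⟩
      have : c i ≠ 0 := hi
      positivity
    constructor
    · intro h
      rw [h] at f1
      simp at f1
      linarith
    · rw [f2]
      have e1 : τ * ∑ i, c i ^ 2 ≤ ∑ i, β (Lg.equivFin.symm i) * c i ^ 2 := by
        rw [mul_sum]
        refine sum_le_sum fun i _ => mul_le_mul_of_nonneg_right ?_ (sq_nonneg _)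
        exact (mem_filter.1 (Lg.equivFin.symm i).2).2
      have e2 := sum_abs_sq_le (cb (fun i => v (Lg.equivFin.symm i)) c)
      rw [f1, ← hm] at e2
      have e3 : 1 / (8 * (R : ℝ)) * (∑ w, |cb (fun i => v (Lg.equivFin.symm i)) c w|) ^ 2 ≤
          τ * ∑ i, c i ^ 2 := by
        calc 1 / (8 * (R : ℝ)) * (∑ w, |cb (fun i => v (Lg.equivFin.symm i)) c w|) ^ 2
            ≤ 1 / (8 * (R : ℝ)) * (m * ∑ i, c i ^ 2) :=
              mul_le_mul_of_nonneg_left e2 (by positivity)
          _ = _ := by rw [hτ]; ring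
      linarith
  · -- packing
    set Gd := univ.filter (fun w => ¬ 1 / 4 < σ w ∧ ¬ 4 * K * R < ρ w) with hGd
    have e1 := hcount σ (m / 8) (1 / 4) hσ0 (by norm_num) hσs
    have e2 := hcount ρ (R * (K * m)) (4 * K * R) hρ0 (by positivity) hρs
    have e3 : ((univ.filter (fun w => 4 * K * R < ρ w)).card : ℝ) ≤ m / 4 := by
      have e4 : ((univ.filter (fun w => 4 * K * R < ρ w)).card : ℝ) * (4 * K * R) ≤
          (m / 4) * (4 * K * R) := by
        refine e2.trans (le_of_eq ?_)
        ring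
      exact le_of_mul_le_mul_right e4 (by positivity)
    have e4 : Fintype.card W ≤ (univ.filter (fun w => 1 / 4 < σ w)).card +
        (univ.filter (fun w => 4 * K * R < ρ w)).card + Gd.card := by
      have e5 : (univ : Finset W) ⊆ (univ.filter (fun w => 1 / 4 < σ w) ∪
          univ.filter (fun w => 4 * K * R < ρ w)) ∪ Gd := by
        intro w _
        rw [mem_union, mem_union, mem_filter, mem_filter, hGd, mem_filter]
        by_cases c1 : 1 / 4 < σ w
        · exact Or.inl (Or.inl ⟨mem_univ _, c1⟩)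
        · by_cases c2 : 4 * K * R < ρ w
          · exact Or.inl (Or.inr ⟨mem_univ _, c2⟩)
          · exact Or.inr ⟨mem_univ _, c1, c2⟩
      have e6 := card_le_card e5
      rw [card_univ] at e6
      refine e6.trans ((card_union_le _ _).trans ?_)
      exact Nat.add_le_add_right (card_union_le _ _) _
    have e5 : m ≤ ((univ.filter (fun w => 1 / 4 < σ w)).card : ℝ) +
        ((univ.filter (fun w => 4 * K * R < ρ w)).card : ℝ) + (Gd.card : ℝ) := by
      rw [hm]
      exact_mod_cast e4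
    have e6 : m / 4 ≤ Gd.card := by linarith
    -- the points
    let q : W → EuclideanSpace ℝ Lg := fun w => WithLp.toLp 2 (fun k => Real.sqrt (β k) * v k w)
    have hq1 : ∀ w, ‖q w‖ ^ 2 = ρ w := by
      intro w
      rw [EuclideanSpace.norm_sq_eq, hρ, ← sum_coe_sort Lg]
      refine sum_congr rfl fun k _ => ?_
      rw [Real.norm_eq_abs, sq_abs]
      show (Real.sqrt (β k) * v k w) ^ 2 = _
      rw [mul_pow, Real.sq_sqrt (hLpos k k.2).le]
    have hq2 : ∀ x y, ‖q x - q y‖ ^ 2 = ∑ k ∈ Lg, β k * (v k x - v k y) ^ 2 := by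
      intro x y
      rw [EuclideanSpace.norm_sq_eq, ← sum_coe_sort Lg]
      refine sum_congr rfl fun k _ => ?_
      rw [Real.norm_eq_abs, sq_abs]
      show (Real.sqrt (β k) * v k x - Real.sqrt (β k) * v k y) ^ 2 = _
      rw [← mul_sub, mul_pow, Real.sq_sqrt (hLpos k k.2).le]
    have hKR : 1 ≤ K * R := by nlinarith
    have e7 := packing Gd q (ρ := 2 * Real.sqrt (K * R)) (by positivity) (by
      intro w hw
      have e8 := not_lt.1 (mem_filter.1 hw).2.2
      refine (pow_le_pow_iff_left₀ (norm_nonneg _) (by positivity) two_ne_zero).1 ?_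
      rw [hq1, mul_pow, Real.sq_sqrt (by positivity)]
      linarith) (by
      intro x hx y hy hxy
      have e8 := hdist x y hxy
      have e9 := not_lt.1 (mem_filter.1 hx).2.1
      have e10 := not_lt.1 (mem_filter.1 hy).2.1
      rw [← hq2] at e8
      by_contra hcon
      push Not at hcon
      have e11 : ‖q x - q y‖ ^ 2 < 1 := by
        have := norm_nonneg (q x - q y)
        nlinarith
      linarith)
    rw [finrank_euclideanSpace, Fintype.card_coe] at e7
    have hsq : 1 ≤ Real.sqrt (K * R) := Real.one_le_sqrt.2 hKR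
    have e8 : (1 + 2 * (2 * Real.sqrt (K * R))) ^ Lg.card ≤ (5 * Real.sqrt (K * R)) ^ Lg.card :=
      pow_le_pow_left₀ (by positivity) (by linarith) _
    have e9 : m ≤ (20 * Real.sqrt (K * R)) ^ Lg.card := by
      have e10 : (4 : ℝ) ≤ 4 ^ Lg.card := by
        calc (4 : ℝ) = 4 ^ 1 := by norm_num
          _ ≤ 4 ^ Lg.card := pow_le_pow_right₀ (by norm_num) hs1
      have e11 : 0 < (5 * Real.sqrt (K * R)) ^ Lg.card := by positivity
      have e12 : (20 * Real.sqrt (K * R)) ^ Lg.card = 4 ^ Lg.card * (5 * Real.sqrt (K * R)) ^ Lg.card := by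
        rw [← mul_pow]
        congr 1
        ring
      rw [e12]
      nlinarith
    rw [← hm]
    calc m ^ 2 ≤ ((20 * Real.sqrt (K * R)) ^ Lg.card) ^ 2 :=
          pow_le_pow_left₀ (by linarith) e9 2
      _ = (400 * K * R) ^ Lg.card := by
          rw [← pow_mul, Nat.mul_comm Lg.card 2, pow_mul, mul_pow,
            Real.sq_sqrt (by positivity)]
          congr 1
          ring

end

end Pool.Agent.Y356.WD
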